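import Pool.Agent.R414.DU.Sep

set_option autoImplicit false
set_option linter.unusedSectionVars false

/-! The exceptional lines and the huge points, `d ≥ 5`. -/

open Finset

namespace Pool.Agent.K1H62.LL

open Pool.Agent.R414.DN Pool.Agent.R414.DS Pool.Agent.R414.DT Pool.Agent.R414.DU

variable {d : ℕ}


lemma part_lines (hd : 5 ≤ d) {b : Cf d} {H : ℕ} {S : Finset (Cf d)}
    (hS : S ⊆ QF b H) (hlead : ∀ a ∈ S, Lead a) (hz : ∀ a ∈ S, ¬ LinesC a) :
    (S.card : ℝ) ≤ d * (2 * (H : ℝ) + 1) ^ (MM d - (d + 1) - 2) := by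
  classical
  have hM := MM_big (by omega : 4 ≤ d)
  obtain ⟨p2, hp2⟩ : ∃ p2 : ↥(I d), p2.1 = (d - 2, 0) :=
    ⟨⟨(d - 2, 0), by rw [mem_I]; omega⟩, rfl⟩
  obtain ⟨p3, hp3⟩ : ∃ p3 : ↥(I d), p3.1 = (d - 2, 1) :=
    ⟨⟨(d - 2, 1), by rw [mem_I]; omega⟩, rfl⟩
  have hp23 : p2 ≠ p3 := by
    intro h
    rw [h, hp3] at hp2
    simp at hp2
  refine rel_QF hS {p2, p3} (by
      intro p hp
      rw [mem_insert, mem_singleton] at hp
      rcases hp with rfl | rfl
      · rw [hp2]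
        simp only
        omega
      · rw [hp3]
        simp only
        omega) (B := d) (Nat.cast_nonneg _) (by
      intro b' T hT hTb
      have h1 := lines_fiber2 (by omega : 4 ≤ d) hp2 hp3 T b' hTb (fun a ha =>
        ⟨hlead a (hT ha), hz a (hT ha)⟩)
      exact_mod_cast h1) (card_pair hp23) (by omega)

lemma part_large (hd : 5 ≤ d) {G N : ℕ} (hLF : LargeF d G N) {b : Cf d} {H : ℕ}
    {S : Finset (Cf d)} (hS : S ⊆ QF b H) (hlead : ∀ a ∈ S, Lead a)
    (hz : ∀ a ∈ S, LinesC a ∧ ∃ x y : ℤ, Fv (co a) d x y = 0 ∧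
      ((d + 1) * Pool.Agent.H322R2.len (poly a)) ^ G < max x.natAbs y.natAbs) :
    (S.card : ℝ) ≤ N * (2 * (H : ℝ) + 1) ^ (MM d - (d + 1) - 2) := by
  classical
  have hM := MM_big (by omega : 4 ≤ d)
  obtain ⟨q0, hq0⟩ : ∃ q0 : ↥(I d), q0.1 = (0, 0) :=
    ⟨⟨(0, 0), by rw [mem_I]; exact ⟨Nat.zero_le _, le_rfl⟩⟩, rfl⟩
  obtain ⟨q1, hq1'⟩ : ∃ q1 : ↥(I d), q1.1 = (1, 0) :=
    ⟨⟨(1, 0), by rw [mem_I]; omega⟩, rfl⟩
  have hq01 : q0 ≠ q1 := by
    intro h
    rw [h, hq1'] at hq0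
    simp at hq0
  refine rel_QF hS {q0, q1} (by
      intro p hp
      rw [mem_insert, mem_singleton] at hp
      rcases hp with rfl | rfl
      · rw [hq0]
        simp only
        omega
      · rw [hq1']
        simp only
        omega) (B := N) (Nat.cast_nonneg _) (by
      intro b' T hT hTb
      have h1 := hLF T b' (by
        intro a ha i hi
        apply hTb a ha
        intro h3
        rw [mem_insert, mem_singleton] at h3
        apply hi
        rw [mem_filter]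
        refine ⟨mem_univ _, ?_⟩
        rcases h3 with h3 | h3
        · rw [h3, hq0]
          show 0 + 4 ≤ d
          omega
        · rw [h3, hq1']
          show 1 + 4 ≤ d
          omega) (fun a ha => ⟨hlead a (hT ha), (hz a (hT ha)).1, (hz a (hT ha)).2⟩)
      exact_mod_cast h1) (card_pair hq01) (by omega)

end Pool.Agent.K1H62.LL
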