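import Pool.Agent.K1H62.LL.Mid3
import Pool.Agent.K1H62.LL.Five

set_option autoImplicit false
set_option linter.unusedSectionVars false

/-! Curves with a prescribed leading form and a point outside of a fixed box: one chart, `d ≥ 5`. -/

open Finset

namespace Pool.Agent.K1H62.LL

open Pool.Agent.R414.DN Pool.Agent.R414.DS Pool.Agent.R414.DT Pool.Agent.R414.DU

variable {d : ℕ}


/-- **One chart.** -/
theorem card_y_lin {b : Cf d} (hd : 5 ≤ d) (hL : Lead b) : ∃ C : ℝ, 0 ≤ C ∧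
    ∀ T H : ℕ, 1 ≤ H → ∀ S : Finset (Cf d), S ⊆ QF b H →
    (∀ a ∈ S, ∃ x y : ℤ, Fv (co a) d x y = 0 ∧ |x| ≤ |y| ∧ T < y.natAbs) →
    (S.card : ℝ) ≤ (24 * 2 ^ (d - 1) / ((T : ℝ) + 1) ^ (d - 3) + C / Real.sqrt H) *
      (2 * (H : ℝ) + 1) ^ (MM d - (d + 1) - 1) := by
  classical
  obtain ⟨c, hc0, hc1, hcb⟩ := exists_cst (by omega : 1 ≤ d) hL
  obtain ⟨G, N, hLF⟩ := exists_largeF (d := d) (by omega)
  have hNR := noRoot_of_lead (by omega : 2 ≤ d) hL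
  obtain ⟨C, hC, hmid⟩ := mid_all hd hL hc0 hc1 hcb (rts_irr hNR) G
  have hd0 : (0 : ℝ) ≤ d := Nat.cast_nonneg d
  have hN0 : (0 : ℝ) ≤ N := Nat.cast_nonneg N
  refine ⟨C + (d + N), by linarith, fun T₀ H hH S hS hz => ?_⟩
  have hH' : (1 : ℝ) ≤ H := by exact_mod_cast hH
  have hH0 : (0 : ℝ) < H := by linarith
  have hM := MM_big (by omega : 4 ≤ d)
  have hlead : ∀ a ∈ S, Lead a := fun a ha => lead_congr (mem_QF.1 (hS ha)).2 hL
  obtain ⟨S1, hS1⟩ : ∃ S1, S1 = S.filter (fun a => ∃ x y : ℤ, Fv (co a) d x y = 0 ∧ |x| ≤ |y| ∧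
    T₀ < y.natAbs ∧ y.natAbs ≤ Yn d H G) := ⟨_, rfl⟩
  obtain ⟨S4, hS4⟩ : ∃ S4, S4 = S.filter (fun a => ¬ LinesC a) := ⟨_, rfl⟩
  obtain ⟨S5, hS5⟩ : ∃ S5, S5 = S.filter (fun a => LinesC a ∧ ∃ x y : ℤ, Fv (co a) d x y = 0 ∧
        ((d + 1) * Pool.Agent.H322R2.len (poly a)) ^ G < max x.natAbs y.natAbs) := ⟨_, rfl⟩
  have hsub : S ⊆ S1 ∪ (S4 ∪ S5) := by
    intro a ha
    rw [hS1, hS4, hS5]
    simp only [mem_union, mem_filter]
    obtain ⟨x, y, h0, hxy, hT0⟩ := hz a ha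
    by_cases h3 : y.natAbs ≤ Yn d H G
    · exact Or.inl ⟨ha, x, y, h0, hxy, hT0, h3⟩
    rw [not_le] at h3
    by_cases h4 : LinesC a
    · refine Or.inr (Or.inr ⟨ha, h4, x, y, h0, ?_⟩)
      refine lt_of_le_of_lt ?_ (lt_of_lt_of_le h3 (le_max_right _ _))
      unfold Yn
      apply Nat.pow_le_pow_left
      exact Nat.mul_le_mul_left _ (len_poly (QF_sub b H (hS ha)))
    · exact Or.inr (Or.inl ⟨ha, h4⟩)
  have b1 := hmid T₀ H hH S1 (by rw [hS1]; exact (filter_subset _ _).trans hS)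
    (fun a ha => by rw [hS1] at ha; exact (mem_filter.1 ha).2)
  have h4S : S4 ⊆ S := by rw [hS4]; exact filter_subset _ _
  have h5S : S5 ⊆ S := by rw [hS5]; exact filter_subset _ _
  have b4 := part_lines hd (h4S.trans hS) (fun a ha => hlead a (h4S ha))
    (fun a ha => by rw [hS4] at ha; exact (mem_filter.1 ha).2)
  have b5 := part_large hd hLF (h5S.trans hS) (fun a ha => hlead a (h5S ha))
    (fun a ha => by rw [hS5] at ha; exact (mem_filter.1 ha).2)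
  obtain ⟨X, hXd⟩ : ∃ X : ℝ, X = 2 * (H : ℝ) + 1 := ⟨_, rfl⟩
  rw [← hXd] at b1 b4 b5 ⊢
  have hHX : (H : ℝ) ≤ X := by rw [hXd]; linarith
  have hX0 : 0 ≤ X := by linarith
  obtain ⟨Y, hY⟩ : ∃ Y : ℝ, Y = X ^ (MM d - (d + 1) - 2) := ⟨_, rfl⟩
  have hY0 : 0 ≤ Y := by rw [hY]; exact pow_nonneg hX0 _
  obtain ⟨Z, hZ⟩ : ∃ Z : ℝ, Z = X ^ (MM d - (d + 1) - 1) := ⟨_, rfl⟩
  have hsq0 : 0 < Real.sqrt H := Real.sqrt_pos.2 hH0
  have hsq1 : Real.sqrt H ≤ H := by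
    rw [Real.sqrt_le_left hH0.le]
    exact le_self_pow₀ hH' two_ne_zero
  have hYZ : Y ≤ 1 / Real.sqrt H * Z := by
    rw [one_div, inv_mul_eq_div, le_div_iff₀ hsq0, hZ, hY]
    have e : MM d - (d + 1) - 1 = (MM d - (d + 1) - 2) + 1 := by omega
    rw [e, pow_succ]
    exact mul_le_mul_of_nonneg_left (hsq1.trans hHX) (pow_nonneg hX0 _)
  rw [← hY] at b4 b5
  rw [← hZ] at b1 ⊢
  have b4' := b4.trans (mul_le_mul_of_nonneg_left hYZ hd0)
  have b5' := b5.trans (mul_le_mul_of_nonneg_left hYZ hN0)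
  have hcard := (card_le_card hsub).trans ((card_union_le _ _).trans (add_le_add le_rfl
    (card_union_le _ _)))
  have hcard' := (Nat.cast_le (α := ℝ)).2 hcard
  simp only [Nat.cast_add] at hcard'
  refine hcard'.trans ((add_le_add b1 (add_le_add b4' b5')).trans (le_of_eq ?_))
  ring

end Pool.Agent.K1H62.LL
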