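import Pool.Agent.K1H62.LL.Pt

set_option autoImplicit false
set_option linter.unusedSectionVars false

/-! The density of a point, and its size. -/

open Finset MeasureTheory Filter Topology

namespace Pool.Agent.K1H62.LL

open Pool.Agent.R414.DN Pool.Agent.R414.DU

/-- the exponents of the monomials of degree `1, ..., e` -/
def Ex (e : ℕ) : Finset (ℕ × ℕ) :=
  (range (e + 1) ×ˢ range (e + 1)).filter fun m => 1 ≤ m.1 + m.2 ∧ m.1 + m.2 ≤ e

lemma mem_Ex {e : ℕ} {m : ℕ × ℕ} : m ∈ Ex e ↔ 1 ≤ m.1 + m.2 ∧ m.1 + m.2 ≤ e := by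
  unfold Ex
  rw [mem_filter, mem_product, mem_range, mem_range]
  omega

/-- the exponents besides `(0, 0)` -/
def eqv (e : ℕ) : Option ↥(Ex e) ≃ ↥(I e) where
  toFun o := match o with
    | none => ⟨(0, 0), by rw [mem_I]; exact ⟨Nat.zero_le _, le_rfl⟩⟩
    | some m => ⟨(m.1.1 + m.1.2, m.1.1), by
        have := mem_Ex.1 m.2
        rw [mem_I]
        exact ⟨this.2, Nat.le_add_right _ _⟩⟩
  invFun p := if h : p.1.1 = 0 then none else some ⟨(p.1.2, p.1.1 - p.1.2), by
    have := mem_I.1 p.2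
    rw [mem_Ex]
    simp only
    omega⟩
  left_inv o := by
    rcases o with _ | m
    · simp
    · have h1 := mem_Ex.1 m.2
      have h2 : ¬ (m.1.1 + m.1.2 = 0) := by omega
      simp only [dif_neg h2]
      congr 1
      apply Subtype.ext
      apply Prod.ext
      · rfl
      · simp
  right_inv p := by
    have h1 := mem_I.1 p.2
    by_cases h : p.1.1 = 0
    · simp only [dif_pos h]
      apply Subtype.ext
      apply Prod.ext
      · exact h.symm
      · simp only
        omega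
    · simp only [dif_neg h]
      apply Subtype.ext
      apply Prod.ext
      · simp only
        omega
      · rfl

lemma eqv_none (e : ℕ) : (eqv e none).1 = (0, 0) := rfl

lemma eqv_some (e : ℕ) (m : ↥(Ex e)) : (eqv e (some m)).1 = (m.1.1 + m.1.2, m.1.1) := rfl

lemma card_Ex (e : ℕ) : Fintype.card ↥(Ex e) = MM e - 1 := by
  have h := Fintype.card_congr (eqv e)
  rw [Fintype.card_option] at h
  have h2 : MM e = Fintype.card ↥(I e) := rfl
  omega

/-- the values of the monomials -/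
def wt (e : ℕ) (x y : ℤ) (m : ↥(Ex e)) : ℤ := x ^ m.1.1 * y ^ m.1.2

lemma Fv_eqv {e : ℕ} (a : Cf e) (x y : ℤ) :
    Fv (co a) e x y = a (eqv e none) + ∑ m, a (eqv e (some m)) * wt e x y m := by
  rw [Fv_sum, ← (eqv e).sum_comp, Fintype.sum_option]
  congr 1
  · rw [eqv_none]
    simp
  · refine sum_congr rfl fun m _ => ?_
    rw [eqv_some]
    unfold wt
    simp only
    rw [Nat.add_sub_cancel_left]

open Classical in
/-- the polynomials with a prescribed value -/
noncomputable def Vs (e : ℕ) (x y s : ℤ) (H : ℕ) : Finset (Cf e) :=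
  (ibox ↥(I e) H).filter fun a => Fv (co a) e x y = s

lemma mem_Vs {e : ℕ} {x y s : ℤ} {H : ℕ} {a : Cf e} :
    a ∈ Vs e x y s H ↔ a ∈ ibox ↥(I e) H ∧ Fv (co a) e x y = s := by
  unfold Vs
  rw [mem_filter]

lemma card_Vs (e : ℕ) (x y s : ℤ) (H : ℕ) : (Vs e x y s H).card = (cw (wt e x y) s H).card := by
  classical
  refine card_bij' (fun a _ m => a (eqv e (some m)))
    (fun a' _ p => match (eqv e).symm p with
      | none => s - ∑ m, a' m * wt e x y m
      | some m => a' m) ?_ ?_ ?_ ?_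
  · intro a ha
    rw [mem_Vs, mem_ibox, Fv_eqv] at ha
    rw [mem_cw, mem_ibox]
    refine ⟨fun i => ha.1 _, ?_⟩
    rw [← ha.2, add_sub_cancel_right]
    exact ha.1 _
  · intro a' ha'
    rw [mem_cw, mem_ibox] at ha'
    rw [mem_Vs, mem_ibox, Fv_eqv]
    constructor
    · intro p
      rcases h : (eqv e).symm p with _ | m
      · simp only [h]
        exact ha'.2
      · simp only [h]
        exact ha'.1 m
    · simp only [Equiv.symm_apply_apply]
      ring
  · intro a ha
    rw [mem_Vs, Fv_eqv] at ha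
    funext p
    rcases h : (eqv e).symm p with _ | m
    · simp only [h]
      have h2 : p = eqv e none := by rw [← h, Equiv.apply_symm_apply]
      rw [h2]
      linarith [ha.2]
    · simp only [h]
      have h2 : p = eqv e (some m) := by rw [← h, Equiv.apply_symm_apply]
      rw [h2]
  · intro a' _
    funext m
    simp only [Equiv.symm_apply_apply]

/-- the density of a point -/
noncomputable def sig (e : ℕ) (x y : ℤ) : ℝ := volume.real (Kb (wt e x y))

lemma wt_ne {e : ℕ} (he : 1 ≤ e) {x y : ℤ} (h : (x, y) ≠ (0, 0)) : ∃ m, wt e x y m ≠ 0 := by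
  by_cases hx : x = 0
  · refine ⟨⟨(0, 1), by rw [mem_Ex]; omega⟩, ?_⟩
    unfold wt
    simp only [pow_zero, one_mul, pow_one]
    intro hy
    exact h (Prod.ext hx hy)
  · refine ⟨⟨(1, 0), by rw [mem_Ex]; omega⟩, ?_⟩
    unfold wt
    simpa using hx

/-- **The number of polynomials with a prescribed value.** -/
theorem tendsto_Vs {e : ℕ} (he : 1 ≤ e) {x y s : ℤ} (h : (x, y) = (0, 0) → s = 0) :
    Tendsto (fun H : ℕ => ((Vs e x y s H).card : ℝ) / (2 * (H : ℝ)) ^ (MM e - 1)) atTop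
      (𝓝 (sig e x y)) := by
  have h1 := tendsto_cw (w := wt e x y) (s := s) (by
    by_cases h0 : (x, y) = (0, 0)
    · exact Or.inr (h h0)
    · exact Or.inl (wt_ne he h0))
  rw [card_Ex] at h1
  refine h1.congr fun H => ?_
  rw [card_Vs]

section size

variable {ι : Type} [Fintype ι] [DecidableEq ι]

/-- upper bound for the number of vectors in a window -/
lemma cw_upper {w : ι → ℤ} {i₀ : ι} {W : ℕ} (hW : 1 ≤ W) (hi : (w i₀).natAbs = W) (H : ℕ) :
    ((cw w 0 H).card : ℝ) ≤ (2 * ((H : ℝ) / W) + 1) * (2 * (H : ℝ) + 1) ^ (Fintype.card ι - 1) := by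
  classical
  have hW0 : (0 : ℝ) < W := by exact_mod_cast hW
  have hwi : |(w i₀ : ℝ)| = W := by
    rw [← Int.cast_abs, Int.abs_eq_natAbs, hi, Int.cast_natCast]
  have hwne : (w i₀ : ℝ) ≠ 0 := by
    rw [← abs_pos, hwi]
    exact hW0
  obtain ⟨g, hg⟩ : ∃ g : (ι → ℤ) → ℝ, g = fun a =>
    -(∑ i ∈ univ.erase i₀, (a i : ℝ) * w i) / w i₀ := ⟨_, rfl⟩
  have h1 := card_window (S := cw w 0 H) i₀ g (by
    intro a n
    rw [hg]
    simp only
    congr 2
    refine sum_congr rfl fun i hi => ?_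
    rw [Function.update_of_ne (mem_erase.1 hi).1]) (δ := H / W) (by positivity) (by
    intro a ha
    rw [mem_cw] at ha
    have h2 := ha.2
    rw [zero_sub, abs_neg] at h2
    have h3 : |((∑ i, a i * w i : ℤ) : ℝ)| ≤ H := by
      rw [← Int.cast_abs]
      exact_mod_cast h2
    push_cast at h3
    rw [← add_sum_erase univ _ (mem_univ i₀)] at h3
    have h4 : (a i₀ : ℝ) - g a = ((a i₀ : ℝ) * w i₀ + ∑ i ∈ univ.erase i₀, (a i : ℝ) * w i) /
        w i₀ := by
      rw [hg]
      field_simp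
      ring
    rw [h4, abs_div, hwi]
    gcongr)
  refine h1.trans ?_
  have h5 : ((cw w 0 H).image fun a => Function.update a i₀ 0).card ≤
      (2 * H + 1) ^ (Fintype.card ι - 1) := by
    have h6 : ((cw w 0 H).image fun a => Function.update a i₀ 0) ⊆ ibox0 H {i₀} := by
      intro b hb
      rw [mem_image] at hb
      obtain ⟨a, ha, rfl⟩ := hb
      rw [mem_cw, mem_ibox] at ha
      rw [mem_ibox0]
      intro i
      by_cases h : i = i₀
      · subst h
        simp
      · rw [Function.update_of_ne h]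
        refine ⟨ha.1 i, fun h7 => ?_⟩
        rw [mem_singleton] at h7
        exact absurd h7 h
    have h7 := card_le_card h6
    rw [card_ibox0, card_singleton] at h7
    exact h7
  have h8 : ((((cw w 0 H).image fun a => Function.update a i₀ 0).card : ℕ) : ℝ) ≤
      (2 * (H : ℝ) + 1) ^ (Fintype.card ι - 1) := by exact_mod_cast h5
  gcongr

/-- lower bound for the number of vectors in a window -/
lemma cw_lower {w : ι → ℤ} {i₀ : ι} {W n : ℕ} (hW : 1 ≤ W) (hi : (w i₀).natAbs = W)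
    (hn : n = Fintype.card ι) (hmax : ∀ i, (w i).natAbs ≤ W) (H : ℕ) :
    ((2 * (H / (4 * n)) + 1) ^ (n - 1) : ℕ) * ((H : ℝ) / W - 1) ≤ ((cw w 0 H).card : ℝ) := by
  classical
  have hn1 : 1 ≤ n := by
    rw [hn]
    exact Fintype.card_pos_iff.2 ⟨i₀⟩
  have hW0 : (0 : ℝ) < W := by exact_mod_cast hW
  have hwi : |(w i₀ : ℝ)| = W := by
    rw [← Int.cast_abs, Int.abs_eq_natAbs, hi, Int.cast_natCast]
  have hwne : (w i₀ : ℝ) ≠ 0 := by
    rw [← abs_pos, hwi]
    exact hW0
  obtain ⟨k, hk⟩ : ∃ k, k = H / (4 * n) := ⟨_, rfl⟩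
  have hk1 : k * (4 * n) ≤ H := by rw [hk]; exact Nat.div_mul_le_self _ _
  have hk1' : (k : ℝ) * (4 * n) ≤ H := by exact_mod_cast hk1
  have hn1' : (1 : ℝ) ≤ n := by exact_mod_cast hn1
  have hkH : k ≤ H := by nlinarith
  rw [← hk]
  obtain ⟨F, hF⟩ : ∃ F : (ι → ℤ) → Finset (ι → ℤ), F = fun o =>
    (Icc ⌈-(∑ i, ((o i : ℤ) : ℝ) * ((w i : ℤ) : ℝ)) / ((w i₀ : ℤ) : ℝ) - (H : ℝ) / (2 * (W : ℝ))⌉
      ⌊-(∑ i, ((o i : ℤ) : ℝ) * ((w i : ℤ) : ℝ)) / ((w i₀ : ℤ) : ℝ) + (H : ℝ) / (2 * (W : ℝ))⌋).image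
        fun t : ℤ => Function.update o i₀ t :=
    ⟨_, rfl⟩
  have hupd : ∀ o ∈ ibox0 k {i₀}, o i₀ = 0 := by
    intro o ho
    exact ((mem_ibox0.1 ho) i₀).2 (mem_singleton_self _)
  have hFc : ∀ o, (H : ℝ) / W - 1 ≤ ((F o).card : ℝ) := by
    intro o
    rw [hF]
    simp only
    rw [card_image_of_injective _ (Function.update_injective o i₀), Int.card_Icc]
    obtain ⟨z, hz⟩ : ∃ z : ℝ, z = -(∑ i, (o i : ℝ) * w i) / w i₀ := ⟨_, rfl⟩
    rw [← hz]
    have h1 := Int.lt_floor_add_one (z + H / (2 * W))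
    have h2 := Int.ceil_lt_add_one (z - H / (2 * W))
    have h3 : ((⌊z + H / (2 * W)⌋ + 1 - ⌈z - H / (2 * W)⌉ : ℤ) : ℝ) ≤
        (((⌊z + (H : ℝ) / (2 * W)⌋ + 1 - ⌈z - (H : ℝ) / (2 * W)⌉).toNat : ℕ) : ℝ) := by
      have := Int.self_le_toNat (⌊z + (H : ℝ) / (2 * W)⌋ + 1 - ⌈z - (H : ℝ) / (2 * W)⌉)
      exact_mod_cast this
    refine le_trans ?_ h3
    push_cast
    have h4 : (H : ℝ) / W = H / (2 * W) + H / (2 * W) := by
      field_simp
      norm_num
    linarith
  have hsub : (ibox0 k {i₀}).biUnion F ⊆ cw w 0 H := by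
    intro a ha
    rw [mem_biUnion] at ha
    obtain ⟨o, ho, ha⟩ := ha
    rw [hF, mem_image] at ha
    obtain ⟨t, ht, rfl⟩ := ha
    rw [mem_Icc, Int.ceil_le, Int.le_floor] at ht
    have ho' := mem_ibox0.1 ho
    have hsum : |∑ i, (o i : ℝ) * w i| ≤ H / 4 * W := by
      refine (abs_sum_le_sum_abs _ _).trans ?_
      calc ∑ i, |(o i : ℝ) * w i| ≤ ∑ _i : ι, (k : ℝ) * W := by
            apply sum_le_sum
            intro i _
            rw [abs_mul]
            have e1 : |(o i : ℝ)| ≤ k := by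
              rw [← Int.cast_abs]
              exact_mod_cast (ho' i).1
            have e2 : |(w i : ℝ)| ≤ W := by
              rw [← Int.cast_abs, Int.abs_eq_natAbs, Int.cast_natCast]
              exact_mod_cast hmax i
            gcongr
        _ = n * (k * W) := by
            rw [sum_const, card_univ, ← hn, nsmul_eq_mul]
        _ = (k * (4 * n)) / 4 * W := by ring
        _ ≤ _ := by gcongr
    have hz : |-(∑ i, (o i : ℝ) * w i) / w i₀| ≤ H / 4 := by
      rw [abs_div, abs_neg, hwi, div_le_iff₀ hW0]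
      exact hsum
    have hH0 : (0 : ℝ) ≤ H := Nat.cast_nonneg H
    have hW1 : (1 : ℝ) ≤ W := by exact_mod_cast hW
    have hhalf : (H : ℝ) / (2 * W) ≤ H / 2 := by
      rw [div_le_div_iff₀ (by positivity) (by norm_num)]
      nlinarith
    have hzab := abs_le.1 hz
    rw [mem_cw, mem_ibox]
    constructor
    · intro i
      by_cases h : i = i₀
      · rw [h, Function.update_self]
        have e1 : |(t : ℝ)| ≤ H := by
          rw [abs_le]
          constructor <;> linarith [ht.1, ht.2]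
        rw [← Int.cast_abs] at e1
        exact_mod_cast e1
      · rw [Function.update_of_ne h]
        have e1 := (ho' i).1
        have e2 : (k : ℤ) ≤ H := by exact_mod_cast hkH
        linarith
    · rw [zero_sub, abs_neg]
      have e1 : ∑ i, (Function.update o i₀ t) i * w i = (∑ i, o i * w i) + t * w i₀ := by
        rw [← add_sum_erase univ _ (mem_univ i₀),
          ← add_sum_erase univ (fun i => o i * w i) (mem_univ i₀), Function.update_self, hupd o ho]
        have e2 : ∑ i ∈ univ.erase i₀, (Function.update o i₀ t) i * w i =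
            ∑ i ∈ univ.erase i₀, o i * w i := by
          refine sum_congr rfl fun i hi => ?_
          rw [Function.update_of_ne (mem_erase.1 hi).1]
        rw [e2]
        ring
      rw [e1]
      have e3 : |((((∑ i, o i * w i) + t * w i₀ : ℤ)) : ℝ)| ≤ H := by
        push_cast
        have e4 : (∑ i, (o i : ℝ) * w i) + t * w i₀ =
            (t - -(∑ i, (o i : ℝ) * w i) / w i₀) * w i₀ := by
          field_simp
          ring
        rw [e4, abs_mul, hwi]
        have e5 : |(t : ℝ) - -(∑ i, (o i : ℝ) * w i) / w i₀| ≤ H / (2 * W) := by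
          rw [abs_le]
          constructor <;> linarith [ht.1, ht.2]
        calc |(t : ℝ) - -(∑ i, (o i : ℝ) * w i) / w i₀| * W ≤ H / (2 * W) * W := by gcongr
          _ = H / 2 := by field_simp
          _ ≤ H := by linarith
      rw [← Int.cast_abs] at e3
      exact_mod_cast e3
  have hdisj : ((ibox0 k {i₀} : Finset (ι → ℤ)) : Set (ι → ℤ)).PairwiseDisjoint F := by
    intro o ho o' ho' hne
    rw [Function.onFun, Finset.disjoint_left]
    intro a ha ha'
    rw [hF, mem_image] at ha ha'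
    obtain ⟨t, -, ht⟩ := ha
    obtain ⟨t', -, ht'⟩ := ha'
    apply hne
    rw [mem_coe] at ho ho'
    funext i
    by_cases h : i = i₀
    · rw [h, hupd o ho, hupd o' ho']
    · have h1 := congrFun (ht.trans ht'.symm) i
      rw [Function.update_of_ne h, Function.update_of_ne h] at h1
      exact h1
  have hfin : (((ibox0 k {i₀}).biUnion F).card : ℝ) ≤ ((cw w 0 H).card : ℝ) := by
    exact_mod_cast card_le_card hsub
  refine le_trans ?_ hfin
  rw [card_biUnion hdisj]
  have hc0 := card_ibox0 (ι := ι) k {i₀}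
  rw [card_singleton, ← hn] at hc0
  rw [← hc0]
  push_cast
  have h11 := card_nsmul_le_sum (ibox0 k {i₀}) (fun o => ((F o).card : ℝ)) _ (fun o _ => hFc o)
  rw [nsmul_eq_mul] at h11
  exact h11

/-- upper bound for the volume -/
lemma vol_upper {w : ι → ℤ} {i₀ : ι} {W : ℕ} (hW : 1 ≤ W) (hi : (w i₀).natAbs = W) :
    volume.real (Kb w) ≤ 1 / W := by
  have hW0 : (0 : ℝ) < W := by exact_mod_cast hW
  have hn : 1 ≤ Fintype.card ι := Fintype.card_pos_iff.2 ⟨i₀⟩
  obtain ⟨n, hn'⟩ : ∃ n, Fintype.card ι = n + 1 := ⟨Fintype.card ι - 1, by omega⟩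
  have h1 := tendsto_cw0 w
  rw [hn'] at h1
  have hlim : Tendsto (fun H : ℕ => (1 / (W : ℝ) + 1 / (2 * (H : ℝ))) *
      (1 + 1 / (2 * (H : ℝ))) ^ n) atTop (𝓝 ((1 / W + 0) * (1 + 0) ^ n)) := by
    have h2 : Tendsto (fun H : ℕ => 1 / (2 * (H : ℝ))) atTop (𝓝 0) :=
      Tendsto.const_div_atTop (tendsto_natCast_atTop_atTop.const_mul_atTop two_pos) _
    exact (tendsto_const_nhds.add h2).mul ((tendsto_const_nhds.add h2).pow n)
  have h3 : (1 / (W : ℝ) + 0) * (1 + 0) ^ n = 1 / W := by ring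
  rw [h3] at hlim
  refine le_of_tendsto_of_tendsto h1 hlim ?_
  filter_upwards [eventually_ge_atTop 1] with H hH
  have hH0 : (0 : ℝ) < H := by exact_mod_cast hH
  have h4 := cw_upper hW hi H
  rw [hn', Nat.add_sub_cancel] at h4
  rw [div_le_iff₀ (by positivity)]
  refine h4.trans (le_of_eq ?_)
  have h5 : (2 * (H : ℝ) + 1) ^ n = (1 + 1 / (2 * (H : ℝ))) ^ n * (2 * (H : ℝ)) ^ n := by
    rw [← mul_pow]
    congr 1
    field_simp
  rw [h5, pow_succ]
  field_simp

/-- lower bound for the volume -/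
lemma vol_lower {w : ι → ℤ} {i₀ : ι} {W n : ℕ} (hW : 1 ≤ W) (hi : (w i₀).natAbs = W)
    (hn : n = Fintype.card ι) (hmax : ∀ i, (w i).natAbs ≤ W) :
    1 / (4 * (8 * n) ^ (n - 1) * (W : ℝ)) ≤ volume.real (Kb w) := by
  have hW0 : (0 : ℝ) < W := by exact_mod_cast hW
  have hn1 : 1 ≤ n := by rw [hn]; exact Fintype.card_pos_iff.2 ⟨i₀⟩
  have hn0 : (0 : ℝ) < n := by exact_mod_cast hn1
  have h1 := tendsto_cw0 w
  refine ge_of_tendsto h1 ?_
  filter_upwards [eventually_ge_atTop (8 * n * W)] with H hH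
  have hH1 : 8 * n * W ≤ H := hH
  have hnW : 1 ≤ n * W := Nat.mul_pos hn1 hW
  have hH0 : (0 : ℝ) < H := by
    have : 0 < H := by nlinarith
    exact_mod_cast this
  have h4 := cw_lower hW hi hn hmax H
  rw [le_div_iff₀ (by positivity)]
  refine le_trans ?_ h4
  have hHW : 8 * (n : ℝ) * W ≤ H := by exact_mod_cast hH1
  have hn1' : (1 : ℝ) ≤ n := by exact_mod_cast hn1
  have e1 : (H : ℝ) / (2 * W) ≤ H / W - 1 := by
    have h5 : (H : ℝ) / W = H / (2 * W) + H / (2 * W) := by
      field_simp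
      norm_num
    have h6 : 1 ≤ (H : ℝ) / (2 * W) := by
      rw [le_div_iff₀ (by positivity)]
      nlinarith
    linarith
  have e2 : (2 * (H : ℝ)) / (8 * n) ≤ 2 * ((H / (4 * n) : ℕ) : ℝ) + 1 := by
    have h5 : H < 4 * n * (H / (4 * n) + 1) := Nat.lt_mul_div_succ H (by omega)
    have h6 : (H : ℝ) < 4 * n * (((H / (4 * n) : ℕ) : ℝ) + 1) := by exact_mod_cast h5
    rw [div_le_iff₀ (by positivity)]
    have h7 : (0 : ℝ) ≤ ((H / (4 * n) : ℕ) : ℝ) := Nat.cast_nonneg _
    nlinarith [mul_nonneg hn0.le h7]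
  obtain ⟨m, rfl⟩ : ∃ m, n = m + 1 := ⟨n - 1, by omega⟩
  rw [Nat.add_sub_cancel] at *
  rw [← hn]
  calc 1 / (4 * (8 * ((m + 1 : ℕ) : ℝ)) ^ m * (W : ℝ)) * (2 * (H : ℝ)) ^ (m + 1)
      = ((2 * (H : ℝ)) / (8 * ((m + 1 : ℕ) : ℝ))) ^ m * ((H : ℝ) / (2 * W)) := by
        rw [div_pow, pow_succ]
        field_simp
        ring
    _ ≤ (2 * ((H / (4 * (m + 1)) : ℕ) : ℝ) + 1) ^ m * ((H : ℝ) / W - 1) := by
        gcongr
    _ = _ := by
        push_cast
        rfl

end size

/-- the largest monomial -/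
lemma wt_max {e : ℕ} (he : 1 ≤ e) {x y : ℤ} {M : ℕ} (hM : M = max x.natAbs y.natAbs)
    (hM1 : 1 ≤ M) : (∃ m, (wt e x y m).natAbs = M ^ e) ∧ ∀ m, (wt e x y m).natAbs ≤ M ^ e := by
  constructor
  · rcases max_choice x.natAbs y.natAbs with h | h
    · refine ⟨⟨(e, 0), by rw [mem_Ex]; omega⟩, ?_⟩
      unfold wt
      simp only [pow_zero, mul_one, Int.natAbs_pow]
      rw [hM, h]
    · refine ⟨⟨(0, e), by rw [mem_Ex]; omega⟩, ?_⟩
      unfold wt
      simp only [pow_zero, one_mul, Int.natAbs_pow]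
      rw [hM, h]
  · intro m
    have hm := mem_Ex.1 m.2
    unfold wt
    rw [Int.natAbs_mul, Int.natAbs_pow, Int.natAbs_pow]
    calc x.natAbs ^ m.1.1 * y.natAbs ^ m.1.2 ≤ M ^ m.1.1 * M ^ m.1.2 := by
          apply Nat.mul_le_mul
          · apply Nat.pow_le_pow_left
            rw [hM]
            exact le_max_left _ _
          · apply Nat.pow_le_pow_left
            rw [hM]
            exact le_max_right _ _
      _ = M ^ (m.1.1 + m.1.2) := by rw [pow_add]
      _ ≤ M ^ e := Nat.pow_le_pow_right hM1 hm.2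

/-- **The size of the density.** -/
theorem sig_bounds {e : ℕ} (he : 1 ≤ e) {x y : ℤ} {M : ℕ} (hM : M = max x.natAbs y.natAbs)
    (hM1 : 1 ≤ M) :
    1 / (4 * (8 * ((MM e - 1 : ℕ) : ℝ)) ^ (MM e - 2) * (M : ℝ) ^ e) ≤ sig e x y ∧
      sig e x y ≤ 1 / (M : ℝ) ^ e := by
  obtain ⟨⟨m, hm⟩, hmax⟩ := wt_max he hM hM1
  have hMe : 1 ≤ M ^ e := Nat.one_le_pow _ _ hM1
  constructor
  · have h1 := vol_lower (w := wt e x y) hMe hm (card_Ex e).symm hmax
    unfold sig
    have h2 : MM e - 1 - 1 = MM e - 2 := by omega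
    rw [h2] at h1
    push_cast at h1 ⊢
    exact h1
  · have h1 := vol_upper (w := wt e x y) hMe hm
    unfold sig
    push_cast at h1
    exact h1

end Pool.Agent.K1H62.LL
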