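import Pool.Agent.K1H62.LL.Tail
import Pool.Agent.K1H62.LL.Sig

set_option autoImplicit false
set_option linter.unusedSectionVars false

/-! The limit law. -/

open Finset MeasureTheory Filter Topology

namespace Pool.Agent.K1H62.LL

open Pool.Agent.R414.DN Pool.Agent.R414.DU

/-- the density of a pair -/
noncomputable def sg (e : ℕ) (P : ℤ × ℤ) : ℝ := sig e P.1 P.2

lemma sg_nonneg (e : ℕ) (P : ℤ × ℤ) : 0 ≤ sg e P := by
  unfold sg sig
  exact measureReal_nonneg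

/-- the size of a pair -/
def sz (P : ℤ × ℤ) : ℕ := max P.1.natAbs P.2.natAbs

/-- the pairs of size at most `T` -/
noncomputable def Bx (T : ℕ) : Finset (ℤ × ℤ) := Icc (-(T : ℤ)) T ×ˢ Icc (-(T : ℤ)) T

lemma mem_Bx {T : ℕ} {P : ℤ × ℤ} : P ∈ Bx T ↔ sz P ≤ T := by
  unfold Bx sz
  rw [mem_product, mem_Icc, mem_Icc]
  omega

section counts

variable {e : ℕ} {φ : MvPolynomial (Fin 2) ℤ}

open Classical in
/-- the polynomials `R` of the box such that `φ + R` vanishes at a point of `A` -/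
noncomputable def ZA (e : ℕ) (φ : MvPolynomial (Fin 2) ℤ) (A : Set (ℤ × ℤ)) (H : ℕ) :
    Finset (Cf e) :=
  (ibox ↥(I e) H).filter fun r => ∃ P ∈ A, MvPolynomial.eval ![P.1, P.2] (φ + poly r) = 0

lemma mem_ZA {A : Set (ℤ × ℤ)} {H : ℕ} {r : Cf e} : r ∈ ZA e φ A H ↔ r ∈ ibox ↥(I e) H ∧
    ∃ P ∈ A, MvPolynomial.eval ![P.1, P.2] (φ + poly r) = 0 := by
  classical
  unfold ZA
  rw [mem_filter]

lemma ZA_single (P : ℤ × ℤ) (H : ℕ) :
    ZA e φ {P} H = Vs e P.1 P.2 (-MvPolynomial.eval ![P.1, P.2] φ) H := by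
  ext r
  rw [mem_ZA, mem_Vs]
  simp only [Set.mem_singleton_iff, exists_eq_left]
  rw [map_add, eval_poly]
  constructor
  · rintro ⟨h1, h2⟩
    exact ⟨h1, by linarith⟩
  · rintro ⟨h1, h2⟩
    exact ⟨h1, by linarith⟩

lemma eval_origin {n : ℕ} (hn : n ≠ 0) (hφ : φ.IsHomogeneous n) :
    MvPolynomial.eval ![(0 : ℤ), 0] φ = 0 := by
  have h5 : MvPolynomial.eval ![(0 : ℤ), 0] φ = φ.coeff 0 := by
    have h6 : (![(0 : ℤ), 0] : Fin 2 → ℤ) = 0 := by
      funext i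
      fin_cases i <;> rfl
    rw [h6, ← MvPolynomial.constantCoeff_eq, MvPolynomial.eval_zero]
  rw [h5]
  by_contra h7
  have h8 := hφ h7
  rw [map_zero] at h8
  omega

lemma tendsto_single (he : 1 ≤ e) (hφ : φ.IsHomogeneous (e + 1)) (P : ℤ × ℤ) :
    Tendsto (fun H : ℕ => ((ZA e φ {P} H).card : ℝ) / (2 * (H : ℝ)) ^ (MM e - 1)) atTop
      (𝓝 (sg e P)) := by
  have h1 := tendsto_Vs (e := e) he (x := P.1) (y := P.2)
    (s := -MvPolynomial.eval ![P.1, P.2] φ) (by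
      intro h
      rw [Prod.mk.injEq] at h
      rw [h.1, h.2, eval_origin (by omega) hφ, neg_zero])
  unfold sg
  refine h1.congr fun H => ?_
  rw [ZA_single]

lemma pair_le (he : 1 ≤ e) {P Q : ℤ × ℤ} (h : P ≠ Q) (H : ℕ) :
    (ZA e φ {P} H ∩ ZA e φ {Q} H).card ≤ (2 * H + 1) ^ (MM e - 2) := by
  classical
  refine le_trans (card_le_card ?_) (card_two_values (e := e) he (H := H) (x := P.1) (y := P.2)
    (s := -MvPolynomial.eval ![P.1, P.2] φ) (x' := Q.1) (y' := Q.2)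
    (s' := -MvPolynomial.eval ![Q.1, Q.2] φ) h)
  intro r hr
  rw [mem_inter, ZA_single, ZA_single, mem_Vs, mem_Vs] at hr
  rw [mem_filter]
  exact ⟨hr.1.1, hr.1.2, hr.2.2⟩

lemma tendsto_pair (he : 1 ≤ e) {P Q : ℤ × ℤ} (h : P ≠ Q) :
    Tendsto (fun H : ℕ => ((ZA e φ {P} H ∩ ZA e φ {Q} H).card : ℝ) /
      (2 * (H : ℝ)) ^ (MM e - 1)) atTop (𝓝 0) := by
  have hM := MM_pos e
  have h1 := tendsto_err (MM e - 1) 1 (by omega)
  refine squeeze_zero (fun H => by positivity) (fun H => ?_) h1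
  have h2 := pair_le (φ := φ) he h H
  have h3 : ((ZA e φ {P} H ∩ ZA e φ {Q} H).card : ℝ) ≤
      ((1 * (2 * H + 1) ^ (MM e - 1 - 1) : ℕ) : ℝ) := by
    have e1 : MM e - 1 - 1 = MM e - 2 := by omega
    rw [e1, one_mul]
    exact_mod_cast h2
  gcongr

lemma ZA_insert (P : ℤ × ℤ) (A : Set (ℤ × ℤ)) (H : ℕ) :
    ZA e φ (insert P A) H = ZA e φ {P} H ∪ ZA e φ A H := by
  classical
  ext r
  rw [mem_union, mem_ZA, mem_ZA, mem_ZA]
  constructor
  · rintro ⟨h1, Q, hQ, h2⟩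
    rcases hQ with rfl | hQ
    · exact Or.inl ⟨h1, Q, rfl, h2⟩
    · exact Or.inr ⟨h1, Q, hQ, h2⟩
  · rintro (⟨h1, Q, hQ, h2⟩ | ⟨h1, Q, hQ, h2⟩)
    · exact ⟨h1, Q, Or.inl hQ, h2⟩
    · exact ⟨h1, Q, Or.inr hQ, h2⟩

/-- finite sets of points -/
lemma tendsto_fin (he : 1 ≤ e) (hφ : φ.IsHomogeneous (e + 1)) (F : Finset (ℤ × ℤ)) :
    Tendsto (fun H : ℕ => ((ZA e φ F H).card : ℝ) / (2 * (H : ℝ)) ^ (MM e - 1)) atTop
      (𝓝 (∑ P ∈ F, sg e P)) := by
  classical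
  induction F using Finset.induction_on with
  | empty =>
    rw [sum_empty]
    have h1 : ∀ H, ZA e φ (((∅ : Finset (ℤ × ℤ))) : Set (ℤ × ℤ)) H = ∅ := by
      intro H
      rw [eq_empty_iff_forall_notMem]
      intro r hr
      obtain ⟨-, P, hP, -⟩ := mem_ZA.1 hr
      simp at hP
    simp only [h1, card_empty, Nat.cast_zero, zero_div]
    exact tendsto_const_nhds
  | insert P F hP ih =>
    rw [sum_insert hP]
    have h1 := tendsto_single (e := e) he hφ P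
    have h2 : Tendsto (fun H : ℕ => ((ZA e φ {P} H ∩ ZA e φ F H).card : ℝ) /
        (2 * (H : ℝ)) ^ (MM e - 1)) atTop (𝓝 0) := by
      have h3 : Tendsto (fun H : ℕ => ∑ Q ∈ F, ((ZA e φ {P} H ∩ ZA e φ {Q} H).card : ℝ) /
          (2 * (H : ℝ)) ^ (MM e - 1)) atTop (𝓝 (∑ _Q ∈ F, 0)) := by
        apply tendsto_finsetSum
        intro Q hQ
        apply tendsto_pair he
        rintro rfl
        exact hP hQ
      rw [sum_const_zero] at h3
      refine squeeze_zero (fun H => by positivity) (fun H => ?_) h3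
      rw [← sum_div]
      have h4 : ZA e φ {P} H ∩ ZA e φ F H ⊆ F.biUnion fun Q => ZA e φ {P} H ∩ ZA e φ {Q} H := by
        intro r hr
        rw [mem_inter] at hr
        obtain ⟨g1, Q, hQ, g2⟩ := mem_ZA.1 hr.2
        rw [mem_biUnion]
        exact ⟨Q, by exact_mod_cast hQ, mem_inter.2 ⟨hr.1, mem_ZA.2 ⟨g1, Q, rfl, g2⟩⟩⟩
      have h5 : ((ZA e φ {P} H ∩ ZA e φ F H).card : ℝ) ≤
          ∑ Q ∈ F, ((ZA e φ {P} H ∩ ZA e φ {Q} H).card : ℝ) := by
        exact_mod_cast (card_le_card h4).trans card_biUnion_le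
      gcongr
    have h6 := (h1.add ih).sub h2
    rw [sub_zero] at h6
    refine h6.congr fun H => ?_
    rw [← add_div, ← sub_div, coe_insert, ZA_insert]
    congr 1
    have h7 := card_union_add_card_inter (ZA e φ {P} H) (ZA e φ F H)
    have h8 : (((ZA e φ {P} H ∪ ZA e φ F H).card : ℕ) : ℝ) +
        ((ZA e φ {P} H ∩ ZA e φ F H).card : ℝ) = ((ZA e φ {P} H).card : ℝ) +
        ((ZA e φ F H).card : ℝ) := by exact_mod_cast h7
    linarith

/-- the constant of the tail -/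
noncomputable def K4 (e : ℕ) : ℝ := K3 (e + 1) * 2 ^ (MM e - 1)

lemma K4_nonneg (e : ℕ) : 0 ≤ K4 e := by
  unfold K4 K3
  positivity

lemma tail_card (he : 4 ≤ e) (hφ : φ.IsHomogeneous (e + 1))
    (hirr : Irreducible (MvPolynomial.map (Int.castRingHom ℚ) φ)) (T : ℕ) :
    ∀ᶠ H : ℕ in atTop, ((ZA e φ {P | T < sz P} H).card : ℝ) / (2 * (H : ℝ)) ^ (MM e - 1) ≤
      K4 e / ((T : ℝ) + 1) ^ (e - 2) := by
  obtain ⟨H₀, h⟩ := upper_lin he hφ hirr T
  filter_upwards [eventually_ge_atTop H₀, eventually_ge_atTop 1] with H h1 h2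
  have hH' : (1 : ℝ) ≤ H := by exact_mod_cast h2
  have hH0 : (0 : ℝ) < H := by linarith
  have h3 := h H h1 (ZA e φ {P | T < sz P} H) (fun r hr => (mem_ZA.1 hr).1) (by
    intro r hr
    obtain ⟨-, P, hP, h4⟩ := mem_ZA.1 hr
    exact ⟨P.1, P.2, h4, hP⟩)
  rw [div_le_iff₀ (by positivity)]
  refine h3.trans ?_
  have hT0 : (0 : ℝ) ≤ T := Nat.cast_nonneg T
  have h5 : (2 * (H : ℝ) + 1) ^ (MM e - 1) ≤ 2 ^ (MM e - 1) * (2 * (H : ℝ)) ^ (MM e - 1) := by
    rw [← mul_pow]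
    gcongr
    linarith
  have hK3 : 0 ≤ K3 (e + 1) := by unfold K3; positivity
  unfold K4
  calc K3 (e + 1) / ((T : ℝ) + 1) ^ (e - 2) * (2 * (H : ℝ) + 1) ^ (MM e - 1)
      ≤ K3 (e + 1) / ((T : ℝ) + 1) ^ (e - 2) *
        (2 ^ (MM e - 1) * (2 * (H : ℝ)) ^ (MM e - 1)) := by gcongr
    _ = _ := by ring

end counts

section sums

variable {e : ℕ}

/-- finite sums outside a box -/
lemma sum_out (he : 3 ≤ e) (T : ℕ) (F : Finset (ℤ × ℤ)) (hF : ∀ P ∈ F, T < sz P) :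
    ∑ P ∈ F, sg e P ≤ 24 / ((T : ℝ) + 1) ^ (e - 2) := by
  classical
  obtain ⟨n, hn⟩ : ∃ n : ℕ, ∀ P ∈ F, sz P ≤ n :=
    ⟨∑ P ∈ F, sz P, fun P hP => single_le_sum (f := fun P => sz P) (fun _ _ => Nat.zero_le _) hP⟩
  have hsub : F ⊆ (Ico T n).biUnion fun Y => shell (Y + 1) := by
    intro P hP
    have h1 := hF P hP
    have h2 := hn P hP
    rw [mem_biUnion]
    refine ⟨sz P - 1, ?_, ?_⟩
    · rw [mem_Ico]
      omega
    · unfold shell
      simp only [mem_filter, mem_product, mem_Icc]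
      have h3 : sz P = max P.1.natAbs P.2.natAbs := rfl
      omega
  have h1 : ∑ P ∈ F, sg e P ≤ ∑ Y ∈ Ico T n, ∑ P ∈ shell (Y + 1), sg e P := by
    refine (sum_le_sum_of_subset_of_nonneg hsub (fun P _ _ => sg_nonneg e P)).trans ?_
    rw [sum_biUnion]
    intro Y _ Y' _ hne
    rw [Function.onFun, disjoint_left]
    intro P hP hP'
    unfold shell at hP hP'
    rw [mem_filter] at hP hP'
    omega
  refine h1.trans ?_
  have h2 : ∀ Y ∈ Ico T n, ∑ P ∈ shell (Y + 1), sg e P ≤ 12 * (1 / ((Y : ℝ) + 1) ^ (e - 2 + 1)) := by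
    intro Y _
    have hY0 : (0 : ℝ) < (Y : ℝ) + 1 := by positivity
    have hY1 : (1 : ℝ) ≤ (Y : ℝ) + 1 := by linarith [(Nat.cast_nonneg Y : (0 : ℝ) ≤ Y)]
    have h3 : ∀ P ∈ shell (Y + 1), sg e P ≤ 1 / ((Y : ℝ) + 1) ^ e := by
      intro P hP
      unfold shell at hP
      rw [mem_filter] at hP
      have h4 := (sig_bounds (e := e) (by omega) (x := P.1) (y := P.2) (M := Y + 1)
        hP.2.symm (Nat.succ_pos Y)).2
      unfold sg
      push_cast at h4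
      exact h4
    refine (sum_le_card_nsmul _ _ _ h3).trans ?_
    rw [nsmul_eq_mul]
    have h5 : ((shell (Y + 1)).card : ℝ) ≤ 12 * ((Y : ℝ) + 1) := by
      have h6 : ((shell (Y + 1)).card : ℝ) ≤ 4 * (2 * ((Y : ℝ) + 1) + 1) := by
        exact_mod_cast card_shell (Y + 1)
      linarith
    calc ((shell (Y + 1)).card : ℝ) * (1 / ((Y : ℝ) + 1) ^ e)
        ≤ 12 * ((Y : ℝ) + 1) * (1 / ((Y : ℝ) + 1) ^ e) := by gcongr
      _ = _ := by
          have e1 : e = (e - 2 + 1) + 1 := by omega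
          have e2 : ((Y : ℝ) + 1) ^ e = ((Y : ℝ) + 1) ^ (e - 2 + 1) * ((Y : ℝ) + 1) := by
            conv_lhs => rw [e1]
            rw [pow_succ]
          rw [e2]
          field_simp
  refine (sum_le_sum h2).trans ?_
  rw [← mul_sum]
  have h7 := sum_tail_pow' (e - 2) (by omega) T n
  calc 12 * ∑ Y ∈ Ico T n, 1 / ((Y : ℝ) + 1) ^ (e - 2 + 1)
      ≤ 12 * (2 / ((T : ℝ) + 1) ^ (e - 2)) := by gcongr
    _ = _ := by ring

lemma summable_sg (he : 3 ≤ e) : Summable (sg e) := by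
  classical
  refine summable_of_sum_le (sg_nonneg e) (c := sg e (0, 0) + 24) fun F => ?_
  have h1 := sum_out he 0 (F.erase (0, 0)) (by
    intro P hP
    rw [mem_erase] at hP
    unfold sz
    by_contra h
    apply hP.1
    apply Prod.ext
    · simp only
      omega
    · simp only
      omega)
  rw [Nat.cast_zero, zero_add, one_pow, div_one] at h1
  have h2 : ∑ P ∈ F, sg e P ≤ ∑ P ∈ insert (0, 0) (F.erase (0, 0)), sg e P := by
    apply sum_le_sum_of_subset_of_nonneg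
    · intro P hP
      by_cases h : P = (0, 0)
      · rw [h]
        exact mem_insert_self _ _
      · exact mem_insert_of_mem (mem_erase.2 ⟨h, hP⟩)
    · intro P _ _
      exact sg_nonneg e P
  rw [sum_insert (notMem_erase _ _)] at h2
  linarith

/-- the sum over a set, up to the points outside a box -/
lemma tsum_box (he : 3 ≤ e) (A : Set (ℤ × ℤ)) (T : ℕ) [DecidablePred (· ∈ A)] :
    ∑ P ∈ (Bx T).filter (· ∈ A), sg e P ≤ ∑' P : ↥A, sg e P ∧
      ∑' P : ↥A, sg e P ≤ ∑ P ∈ (Bx T).filter (· ∈ A), sg e P + 24 / ((T : ℝ) + 1) ^ (e - 2) := by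
  classical
  have hs := summable_sg he
  rw [tsum_subtype A (sg e)]
  have hsA : Summable (A.indicator (sg e)) := hs.indicator A
  have hnn : ∀ P, 0 ≤ A.indicator (sg e) P := fun P => Set.indicator_nonneg (fun _ _ => sg_nonneg e _) P
  have h0 : ∑ P ∈ (Bx T).filter (· ∈ A), sg e P = ∑ P ∈ Bx T, A.indicator (sg e) P := by
    rw [sum_filter]
    refine sum_congr rfl fun P _ => ?_
    rw [Set.indicator_apply]
  rw [h0]
  constructor
  · exact hsA.sum_le_tsum _ (fun P _ => hnn P)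
  · refine hsA.tsum_le_of_sum_le fun F => ?_
    have h1 : ∑ P ∈ F, A.indicator (sg e) P ≤ ∑ P ∈ Bx T ∪ F.filter (fun P => T < sz P),
        A.indicator (sg e) P := by
      apply sum_le_sum_of_subset_of_nonneg
      · intro P hP
        rw [mem_union, mem_filter, mem_Bx]
        by_cases h : sz P ≤ T
        · exact Or.inl h
        · exact Or.inr ⟨hP, not_le.1 h⟩
      · intro P _ _
        exact hnn P
    refine h1.trans ?_
    rw [sum_union (by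
      rw [disjoint_left]
      intro P hP hP'
      rw [mem_Bx] at hP
      rw [mem_filter] at hP'
      omega)]
    have h2 : ∑ P ∈ F.filter (fun P => T < sz P), A.indicator (sg e) P ≤
        24 / ((T : ℝ) + 1) ^ (e - 2) := by
      refine le_trans (sum_le_sum fun P _ => ?_) (sum_out he T (F.filter (fun P => T < sz P))
        (fun P hP => (mem_filter.1 hP).2))
      exact Set.indicator_le_self' (fun _ _ => sg_nonneg e _) P
    linarith

end sums

section law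

variable {e : ℕ} {φ : MvPolynomial (Fin 2) ℤ}

lemma small_T (K : ℝ) {ε : ℝ} (hε : 0 < ε) (he : 3 ≤ e) (hK : 0 ≤ K) :
    ∃ T : ℕ, K / ((T : ℝ) + 1) ^ (e - 2) < ε := by
  obtain ⟨T, hT⟩ := exists_nat_gt (K / ε)
  refine ⟨T, ?_⟩
  have hT0 : (0 : ℝ) ≤ T := Nat.cast_nonneg T
  have h1 : (T : ℝ) + 1 ≤ ((T : ℝ) + 1) ^ (e - 2) := le_self_pow₀ (by linarith) (by omega)
  rw [div_lt_iff₀ (by positivity)]
  rw [div_lt_iff₀ hε] at hT
  nlinarith

/-- **The limit law.** -/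
theorem law (he : 4 ≤ e) (hφ : φ.IsHomogeneous (e + 1))
    (hirr : Irreducible (MvPolynomial.map (Int.castRingHom ℚ) φ)) (A : Set (ℤ × ℤ)) :
    Tendsto (fun H : ℕ => ((ZA e φ A H).card : ℝ) / (2 * (H : ℝ)) ^ (MM e - 1)) atTop
      (𝓝 (∑' P : ↥A, sg e P)) := by
  classical
  rw [Metric.tendsto_atTop']
  intro ε hε
  obtain ⟨T, hT⟩ := small_T (K4 e + 24) (by linarith : 0 < ε / 3) (by omega : 3 ≤ e)
    (by have := K4_nonneg e; linarith)
  have hT0 : (0 : ℝ) ≤ T := Nat.cast_nonneg T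
  have hp0 : (0 : ℝ) < ((T : ℝ) + 1) ^ (e - 2) := by positivity
  have hT1 : K4 e / ((T : ℝ) + 1) ^ (e - 2) < ε / 3 :=
    lt_of_le_of_lt (by gcongr; linarith) hT
  have hT2 : 24 / ((T : ℝ) + 1) ^ (e - 2) < ε / 3 :=
    lt_of_le_of_lt (by gcongr; linarith [K4_nonneg e]) hT
  obtain ⟨g1, g2⟩ := tsum_box (by omega : 3 ≤ e) A T
  have h1 := tendsto_fin (by omega : 1 ≤ e) hφ ((Bx T).filter (· ∈ A))
  rw [Metric.tendsto_atTop'] at h1
  obtain ⟨H1, h1⟩ := h1 (ε / 3) (by linarith)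
  obtain ⟨H2, h2⟩ := eventually_atTop.1 (tail_card he hφ hirr T)
  refine ⟨H1 + H2, fun H hH => ?_⟩
  have h3 := h1 H (by omega)
  have h4 := h2 H (by omega)
  rw [Real.dist_eq, abs_lt] at h3 ⊢
  have hX : 0 ≤ (2 * (H : ℝ)) ^ (MM e - 1) := by positivity
  have s1 : ZA e φ (((Bx T).filter (· ∈ A) : Finset (ℤ × ℤ)) : Set (ℤ × ℤ)) H ⊆ ZA e φ A H := by
    intro r hr
    obtain ⟨f1, P, hP, f2⟩ := mem_ZA.1 hr
    rw [mem_coe, mem_filter] at hP
    exact mem_ZA.2 ⟨f1, P, hP.2, f2⟩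
  have s2 : ZA e φ A H ⊆ ZA e φ (((Bx T).filter (· ∈ A) : Finset (ℤ × ℤ)) : Set (ℤ × ℤ)) H ∪
      ZA e φ {P | T < sz P} H := by
    intro r hr
    obtain ⟨f1, P, hP, f2⟩ := mem_ZA.1 hr
    rw [mem_union]
    by_cases h : sz P ≤ T
    · left
      refine mem_ZA.2 ⟨f1, P, ?_, f2⟩
      rw [mem_coe, mem_filter, mem_Bx]
      exact ⟨h, hP⟩
    · right
      exact mem_ZA.2 ⟨f1, P, not_le.1 h, f2⟩
  have s3 : ((ZA e φ (((Bx T).filter (· ∈ A) : Finset (ℤ × ℤ)) : Set (ℤ × ℤ)) H).card : ℝ) ≤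
      ((ZA e φ A H).card : ℝ) := by exact_mod_cast card_le_card s1
  have s4 : ((ZA e φ A H).card : ℝ) ≤
      ((ZA e φ (((Bx T).filter (· ∈ A) : Finset (ℤ × ℤ)) : Set (ℤ × ℤ)) H).card : ℝ) +
      ((ZA e φ {P | T < sz P} H).card : ℝ) := by
    exact_mod_cast (card_le_card s2).trans (card_union_le _ _)
  have s5 := div_le_div_of_nonneg_right s3 hX
  have s6 := div_le_div_of_nonneg_right s4 hX
  rw [add_div] at s6
  constructor <;> linarith

open Classical in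
/-- the polynomials `R` of the box such that `φ + R` has two integer zeros -/
noncomputable def Z2 (e : ℕ) (φ : MvPolynomial (Fin 2) ℤ) (H : ℕ) : Finset (Cf e) :=
  (ibox ↥(I e) H).filter fun r => ∃ P Q : ℤ × ℤ, P ≠ Q ∧
    MvPolynomial.eval ![P.1, P.2] (φ + poly r) = 0 ∧
    MvPolynomial.eval ![Q.1, Q.2] (φ + poly r) = 0

lemma mem_Z2 {H : ℕ} {r : Cf e} : r ∈ Z2 e φ H ↔ r ∈ ibox ↥(I e) H ∧ ∃ P Q : ℤ × ℤ, P ≠ Q ∧
    MvPolynomial.eval ![P.1, P.2] (φ + poly r) = 0 ∧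
    MvPolynomial.eval ![Q.1, Q.2] (φ + poly r) = 0 := by
  classical
  unfold Z2
  rw [mem_filter]

/-- **Two integer points.** -/
theorem two (he : 4 ≤ e) (hφ : φ.IsHomogeneous (e + 1))
    (hirr : Irreducible (MvPolynomial.map (Int.castRingHom ℚ) φ)) :
    Tendsto (fun H : ℕ => ((Z2 e φ H).card : ℝ) / (2 * (H : ℝ)) ^ (MM e - 1)) atTop (𝓝 0) := by
  classical
  rw [Metric.tendsto_atTop']
  intro ε hε
  obtain ⟨T, hT⟩ := small_T (K4 e) (by linarith : 0 < ε / 2) (by omega : 3 ≤ e) (K4_nonneg e)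
  have h1 : Tendsto (fun H : ℕ => ∑ PQ ∈ (Bx T ×ˢ Bx T).filter (fun PQ => PQ.1 ≠ PQ.2),
      ((ZA e φ {PQ.1} H ∩ ZA e φ {PQ.2} H).card : ℝ) / (2 * (H : ℝ)) ^ (MM e - 1)) atTop
      (𝓝 (∑ _PQ ∈ (Bx T ×ˢ Bx T).filter (fun PQ => PQ.1 ≠ PQ.2), 0)) := by
    apply tendsto_finsetSum
    intro PQ hPQ
    exact tendsto_pair (by omega) (mem_filter.1 hPQ).2
  rw [sum_const_zero, Metric.tendsto_atTop'] at h1
  obtain ⟨H1, h1⟩ := h1 (ε / 2) (by linarith)
  obtain ⟨H2, h2⟩ := eventually_atTop.1 (tail_card he hφ hirr T)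
  refine ⟨H1 + H2, fun H hH => ?_⟩
  have h3 := h1 H (by omega)
  have h4 := h2 H (by omega)
  rw [Real.dist_eq, sub_zero] at h3 ⊢
  have h3' := lt_of_le_of_lt (le_abs_self _) h3
  have hX : 0 ≤ (2 * (H : ℝ)) ^ (MM e - 1) := by positivity
  rw [abs_of_nonneg (by positivity)]
  rw [← sum_div] at h3'
  have s2 : Z2 e φ H ⊆ (((Bx T ×ˢ Bx T).filter (fun PQ => PQ.1 ≠ PQ.2)).biUnion fun PQ =>
      ZA e φ {PQ.1} H ∩ ZA e φ {PQ.2} H) ∪ ZA e φ {P | T < sz P} H := by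
    intro r hr
    obtain ⟨f1, P, Q, hPQ, f2, f3⟩ := mem_Z2.1 hr
    rw [mem_union]
    by_cases hP : sz P ≤ T
    · by_cases hQ : sz Q ≤ T
      · left
        rw [mem_biUnion]
        refine ⟨(P, Q), ?_, ?_⟩
        · rw [mem_filter, mem_product, mem_Bx, mem_Bx]
          exact ⟨⟨hP, hQ⟩, hPQ⟩
        · rw [mem_inter, mem_ZA, mem_ZA]
          exact ⟨⟨f1, P, rfl, f2⟩, f1, Q, rfl, f3⟩
      · right
        exact mem_ZA.2 ⟨f1, Q, not_le.1 hQ, f3⟩
    · right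
      exact mem_ZA.2 ⟨f1, P, not_le.1 hP, f2⟩
  have s4 : ((Z2 e φ H).card : ℝ) ≤ (∑ PQ ∈ (Bx T ×ˢ Bx T).filter (fun PQ => PQ.1 ≠ PQ.2),
      ((ZA e φ {PQ.1} H ∩ ZA e φ {PQ.2} H).card : ℝ)) +
      ((ZA e φ {P | T < sz P} H).card : ℝ) := by
    have := (card_le_card s2).trans ((card_union_le _ _).trans
      (Nat.add_le_add_right card_biUnion_le _))
    exact_mod_cast this
  have s6 := div_le_div_of_nonneg_right s4 hX
  rw [add_div] at s6
  linarith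

end law

end Pool.Agent.K1H62.LL
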