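import Pool.Agent.R414.DN.Asm
import Pool.Agent.W472.AC.RothThm

set_option autoImplicit false
set_option linter.unusedSectionVars false

/-! Auxiliary estimates: Roth's theorem for several numbers, the upper limit of the middle range. -/

open Finset

namespace Pool.Agent.K1H62.LL

open Pool.Agent.R414.DN

variable {d : ℕ}

lemma rts_alg {c : ℕ → ℕ → ℤ} {d : ℕ} {α : ℝ} (hα : α ∈ rts c d) : IsAlgebraic ℚ α := by
  unfold rts at hα
  rw [Multiset.mem_toFinset, Polynomial.mem_roots'] at hα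
  have hmap : (∑ j ∈ range (d + 1), Polynomial.C ((c d j : ℤ) : ℚ) * Polynomial.X ^ j).map
      (algebraMap ℚ ℝ) = ∑ j ∈ range (d + 1), Polynomial.C ((c d j : ℤ) : ℝ) * Polynomial.X ^ j := by
    rw [Polynomial.map_sum]
    refine sum_congr rfl fun j _ => ?_
    simp
  refine ⟨∑ j ∈ range (d + 1), Polynomial.C ((c d j : ℤ) : ℚ) * Polynomial.X ^ j, ?_, ?_⟩
  · intro h0
    apply hα.1
    rw [← hmap, h0, Polynomial.map_zero]
  · have h1 := hα.2
    rw [← hmap, Polynomial.IsRoot, Polynomial.eval_map_algebraMap] at h1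
    exact h1

/-- a common constant in Roth's theorem -/
lemma exists_roth {K : Finset ℝ} (hK : ∀ α ∈ K, Irrational α) (hA : ∀ α ∈ K, IsAlgebraic ℚ α)
    {η : ℝ} (hη : 0 < η) : ∃ cR : ℝ, 0 < cR ∧ cR ≤ 1 ∧ ∀ α ∈ K, ∀ q : ℕ, 1 ≤ q → ∀ p : ℤ,
      cR ≤ (q : ℝ) ^ (1 + η) * |q * α - p| := by
  classical
  have h1 : ∀ α ∈ K, ∃ c : ℝ, 0 < c ∧ ∀ q : ℕ, 1 ≤ q → ∀ p : ℤ,
      c ≤ (q : ℝ) ^ (1 + η) * |q * α - p| :=
    fun α hα => Pool.Agent.W472.AC.roth α (hA α hα) (hK α hα) η hη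
  choose! f hf using h1
  rcases K.eq_empty_or_nonempty with h0 | h0
  · refine ⟨1, one_pos, le_rfl, fun α hα => ?_⟩
    rw [h0] at hα
    simp at hα
  · obtain ⟨α₀, hα₀, hmin⟩ := exists_min_image K f h0
    refine ⟨min (f α₀) 1, lt_min (hf α₀ hα₀).1 one_pos, min_le_right _ _, fun α hα q hq p => ?_⟩
    exact (min_le_left _ _).trans ((hmin α hα).trans ((hf α hα).2 q hq p))

/-- the numerical estimates for the upper limit of the middle range -/
lemma Yn_bounds {d G H : ℕ} (hH : 1 ≤ H) {κ η q : ℝ} (hκ : κ = (d + 1) * MM d)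
    (hη : η = 1 / (4 * (G + 1))) (hq : q = (H : ℝ) ^ (1 / 4 : ℝ)) :
    1 ≤ Yn d H G ∧ ((Yn d H G : ℕ) : ℝ) ^ η ≤ κ * q ∧
      (Nat.log 2 (Yn d H G) : ℝ) + 1 ≤ (2 * (G * (Real.log κ + 4)) + 1) * q := by
  have hH' : (1 : ℝ) ≤ H := by exact_mod_cast hH
  have hM1 : 1 ≤ (d + 1) * MM d := Nat.mul_pos (Nat.succ_pos d) (by have := MM_pos d; omega)
  have hκ1 : 1 ≤ κ := by
    rw [hκ]
    exact_mod_cast hM1
  have hκ0 : 0 < κ := by linarith
  have hY1 : 1 ≤ Yn d H G := by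
    unfold Yn
    apply Nat.one_le_pow
    rw [← mul_assoc]
    exact Nat.mul_pos hM1 hH
  have hYr : ((Yn d H G : ℕ) : ℝ) = (κ * H) ^ G := by
    unfold Yn
    push_cast
    rw [hκ, mul_assoc]
  have hκH : 1 ≤ κ * H := by nlinarith
  have hq1 : 1 ≤ q := by rw [hq]; exact Real.one_le_rpow hH' (by norm_num)
  refine ⟨hY1, ?_, ?_⟩
  · rw [hYr, ← Real.rpow_natCast, ← Real.rpow_mul (by positivity)]
    have h1 : (G : ℝ) * η ≤ 1 / 4 := by
      rw [hη, mul_one_div, div_le_div_iff₀ (by positivity) (by norm_num)]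
      linarith
    calc (κ * (H : ℝ)) ^ ((G : ℝ) * η) ≤ (κ * H) ^ (1 / 4 : ℝ) :=
          Real.rpow_le_rpow_of_exponent_le hκH h1
      _ = κ ^ (1 / 4 : ℝ) * (H : ℝ) ^ (1 / 4 : ℝ) := Real.mul_rpow (by positivity) (by positivity)
      _ ≤ κ * q := by
          rw [hq]
          have h2 : κ ^ (1 / 4 : ℝ) ≤ κ ^ (1 : ℝ) :=
            Real.rpow_le_rpow_of_exponent_le hκ1 (by norm_num)
          rw [Real.rpow_one] at h2
          gcongr
  · have hlogY : Real.log ((Yn d H G : ℕ) : ℝ) ≤ G * (Real.log κ + 4) * q := by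
      rw [hYr, Real.log_pow, Real.log_mul (by positivity) (by positivity)]
      have h2 : Real.log H ≤ 4 * q := by
        have := Real.log_le_rpow_div (by linarith : (0 : ℝ) ≤ H) (by norm_num : (0 : ℝ) < 1 / 4)
        rw [← hq] at this
        linarith
      have h4 : 0 ≤ Real.log κ := Real.log_nonneg hκ1
      have h5 : Real.log κ ≤ Real.log κ * q := le_mul_of_one_le_right h4 hq1
      rw [mul_assoc]
      gcongr
      rw [add_mul]
      linarith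
    have h6 : (Nat.log 2 (Yn d H G) : ℝ) ≤ 2 * Real.log ((Yn d H G : ℕ) : ℝ) := by
      have h7 : 2 ^ Nat.log 2 (Yn d H G) ≤ Yn d H G := Nat.pow_log_le_self 2 (by omega)
      have h8 : ((2 : ℝ)) ^ Nat.log 2 (Yn d H G) ≤ ((Yn d H G : ℕ) : ℝ) := by exact_mod_cast h7
      have h9 := Real.log_le_log (by positivity) h8
      rw [Real.log_pow] at h9
      have h10 := Real.log_two_gt_d9
      have h11 : (0 : ℝ) ≤ Nat.log 2 (Yn d H G) := Nat.cast_nonneg _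
      nlinarith
    have h12 : (2 * (G * (Real.log κ + 4)) + 1) * q = 2 * (G * (Real.log κ + 4) * q) + q := by ring
    rw [h12]
    linarith

/-- numerical estimate for the strips -/
lemma num2 {d B W H X : ℝ} {k m : ℕ} (hd : 0 ≤ d) (hB : 1 ≤ B) (hW : 0 ≤ W) (hH : 1 ≤ H)
    (hX : 1 ≤ X) (hHX : H ≤ X) (hkm : 4 + k ≤ m) :
    ((2 * (B * H ^ 2) + 1) * (d * (2 * (W * H) + 1))) * X ^ k ≤
      (3 * B * (d * (2 * W + 1))) / Real.sqrt H * X ^ m := by
  have hH0 : 0 < H := by linarith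
  have hsq0 : 0 < Real.sqrt H := Real.sqrt_pos.2 hH0
  have hsq1 : Real.sqrt H ≤ H := by
    rw [Real.sqrt_le_left hH0.le]
    nlinarith
  have h1 : H ^ 3 * X ^ k ≤ X ^ m / Real.sqrt H := by
    rw [le_div_iff₀ hsq0]
    calc H ^ 3 * X ^ k * Real.sqrt H ≤ X ^ 3 * X ^ k * X := by
          have := hsq1.trans hHX
          gcongr
      _ = X ^ (4 + k) := by rw [pow_add]; ring
      _ ≤ X ^ m := pow_le_pow_right₀ hX hkm
  have hH6 : 1 ≤ H ^ 2 := one_le_pow₀ hH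
  have h8 : 2 * (B * H ^ 2) + 1 ≤ 3 * B * H ^ 2 := by nlinarith
  have h9 : d * (2 * (W * H) + 1) ≤ d * (2 * W + 1) * H := by
    have h10 : 0 ≤ d * (H - 1) := mul_nonneg hd (by linarith)
    have h11 : d * (2 * W + 1) * H = d * (2 * (W * H) + 1) + d * (H - 1) := by ring
    rw [h11]
    exact le_add_of_nonneg_right h10
  calc ((2 * (B * H ^ 2) + 1) * (d * (2 * (W * H) + 1))) * X ^ k
      ≤ ((3 * B * H ^ 2) * (d * (2 * W + 1) * H)) * X ^ k := by gcongr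
    _ = (3 * B * (d * (2 * W + 1))) * (H ^ 3 * X ^ k) := by ring
    _ ≤ (3 * B * (d * (2 * W + 1))) * (X ^ m / Real.sqrt H) := by gcongr
    _ = _ := by ring

/-- numerical estimate for the points near the asymptotes -/
lemma num3 {d L F H κ q cR lκ X : ℝ} {k m : ℕ} (hd : 0 ≤ d) (hL0 : 0 ≤ L) (hL : L ≤ lκ * q)
    (hF : 0 ≤ F) (hκ : 0 ≤ κ) (hcR : 0 < cR) (hH : 1 ≤ H) (hq : 1 ≤ q)
    (hqq : q * q = Real.sqrt H) (hX : 1 ≤ X) (hHX : H ≤ X) (hkm : 3 + k ≤ m) :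
    d * (L * (16 * (F * H ^ 2) * (κ * q) / cR + 1)) * X ^ k ≤
      (d * (lκ * (16 * F * κ / cR + 1))) / Real.sqrt H * X ^ m := by
  have hH0 : 0 < H := by linarith
  have hsq0 : 0 < Real.sqrt H := Real.sqrt_pos.2 hH0
  have hsqq : Real.sqrt H * Real.sqrt H = H := Real.mul_self_sqrt hH0.le
  have hlκ : 0 ≤ lκ := by
    by_contra h
    rw [not_le] at h
    nlinarith
  have h7 : H ^ 3 * X ^ k ≤ X ^ m := by
    calc H ^ 3 * X ^ k ≤ X ^ 3 * X ^ k := by gcongr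
      _ = X ^ (3 + k) := by rw [← pow_add]
      _ ≤ X ^ m := pow_le_pow_right₀ hX hkm
  have h8 : 16 * (F * H ^ 2) * (κ * q) / cR + 1 ≤ (16 * F * κ / cR + 1) * (H ^ 2 * q) := by
    have e1 : 1 ≤ H ^ 2 * q := by
      have : 1 ≤ H ^ 2 := one_le_pow₀ hH
      nlinarith
    have e2 : (16 * F * κ / cR + 1) * (H ^ 2 * q) =
      16 * (F * H ^ 2) * (κ * q) / cR + H ^ 2 * q := by ring
    rw [e2]
    linarith
  have h9 : H ^ 2 * Real.sqrt H = H ^ 3 / Real.sqrt H := by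
    rw [eq_div_iff hsq0.ne', mul_assoc, hsqq]
    ring
  calc d * (L * (16 * (F * H ^ 2) * (κ * q) / cR + 1)) * X ^ k
      ≤ d * ((lκ * q) * ((16 * F * κ / cR + 1) * (H ^ 2 * q))) * X ^ k := by gcongr
    _ = (d * (lκ * (16 * F * κ / cR + 1))) * (H ^ 2 * (q * q)) * X ^ k := by ring
    _ = (d * (lκ * (16 * F * κ / cR + 1))) / Real.sqrt H * (H ^ 3 * X ^ k) := by
        rw [hqq, h9]
        ring
    _ ≤ _ := by gcongr

end Pool.Agent.K1H62.LL
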