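import Pool.Agent.K1H62.LL.Rng
import Pool.Agent.K1H62.LL.Yb

set_option autoImplicit false
set_option linter.unusedSectionVars false

/-! Points of small and middle size. -/

open Finset

namespace Pool.Agent.K1H62.LL

open Pool.Agent.R414.DN Pool.Agent.R414.DS Pool.Agent.R414.DT

variable {d : ℕ}


lemma CA_nonneg (n A : ℕ) : (0 : ℝ) ≤ 12 * 2 ^ n * (A : ℝ) ^ 2 := by positivity

/-- **Points of small and middle size.** -/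
theorem mid_all {b : Cf d} (hd : 5 ≤ d) (hL : Lead b) {c : ℝ} (hc0 : 0 < c) (hc1 : c ≤ 1)
    (hcb : ∀ t : ℝ, |t| ≤ 2 → c ≤ |TT (co b) d 0 t| ∨ c ≤ |TT (co b) d 1 t|)
    (hirr : ∀ α ∈ rts (co b) d, Irrational α) (G : ℕ) : ∃ C : ℝ, 0 ≤ C ∧
    ∀ T H : ℕ, 1 ≤ H → ∀ S : Finset (Cf d), S ⊆ QF b H →
    (∀ a ∈ S, ∃ x y : ℤ, Fv (co a) d x y = 0 ∧ |x| ≤ |y| ∧ T < y.natAbs ∧
      y.natAbs ≤ Yn d H G) →
    (S.card : ℝ) ≤ (24 * 2 ^ (d - 1) / ((T : ℝ) + 1) ^ (d - 3) + C / Real.sqrt H) *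
      (2 * (H : ℝ) + 1) ^ (MM d - (d + 1) - 1) := by
  classical
  obtain ⟨h, hh, hb⟩ : ∃ h : ℝ, 1 ≤ h ∧ ∀ k i, |(co b k i : ℝ)| ≤ h := by
    refine ⟨((1 + ∑ p, (b p).natAbs : ℕ) : ℝ), ?_, fun k i => ?_⟩
    · push_cast
      have : (0 : ℝ) ≤ ∑ p, ((b p).natAbs : ℝ) := sum_nonneg fun _ _ => Nat.cast_nonneg _
      linarith
    · apply co_le'
      rw [mem_ibox]
      intro p
      rw [Int.abs_eq_natAbs]
      have h1 : (b p).natAbs ≤ ∑ p, (b p).natAbs :=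
        single_le_sum (f := fun p => (b p).natAbs) (fun _ _ => Nat.zero_le _) (mem_univ p)
      exact_mod_cast (by omega : (b p).natAbs ≤ 1 + ∑ p, (b p).natAbs)
  obtain ⟨η, hη⟩ : ∃ η : ℝ, η = 1 / (4 * (G + 1)) := ⟨_, rfl⟩
  have hη0 : 0 < η := by rw [hη]; positivity
  obtain ⟨cR, hcR0, hcR1, hroth⟩ := exists_roth hirr (fun α hα => rts_alg hα) hη0
  have hcp := c1_pos d
  obtain ⟨κ, hκ⟩ : ∃ κ : ℝ, κ = (d + 1) * MM d := ⟨_, rfl⟩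
  have hκ1 : 1 ≤ κ := by
    rw [hκ]
    have h1 : 1 ≤ (d + 1) * MM d := Nat.mul_pos (Nat.succ_pos d) (by have := MM_pos d; omega)
    exact_mod_cast h1
  have hW0 : 0 ≤ WA d c := by unfold WA; positivity
  have hEA0 : 0 ≤ EA d h c := by unfold EA WA; positivity
  obtain ⟨F, hF⟩ : ∃ F : ℝ, F = EA d h c + 1 := ⟨_, rfl⟩
  have hF1 : 1 ≤ F := by rw [hF]; linarith
  have hF0 : 0 ≤ F := by linarith
  have hκ0 : 0 ≤ κ := by linarith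
  obtain ⟨A, hA⟩ : ∃ A : ℕ, A = ⌈AA d h c⌉₊ + 2 := ⟨_, rfl⟩
  have hAle : AA d h c ≤ A := by
    rw [hA]
    push_cast
    have := Nat.le_ceil (AA d h c)
    linarith
  have hA2 : (2 : ℝ) ≤ A := by
    rw [hA]
    push_cast
    have : (0 : ℝ) ≤ (⌈AA d h c⌉₊ : ℝ) := Nat.cast_nonneg _
    linarith
  obtain ⟨B, hB⟩ : ∃ B : ℕ, B = ⌈16 * F⌉₊ + 1 := ⟨_, rfl⟩
  have hBle : 16 * F ≤ B := by
    rw [hB]
    push_cast
    have := Nat.le_ceil (16 * F)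
    linarith
  have hB1 : (1 : ℝ) ≤ B := by linarith
  have hB0 : (0 : ℝ) ≤ B := by linarith
  obtain ⟨lκ, hlκ⟩ : ∃ lκ : ℝ, lκ = 2 * (G * (Real.log κ + 4)) + 1 := ⟨_, rfl⟩
  have hlκ0 : 0 ≤ lκ := by
    rw [hlκ]
    have := Real.log_nonneg hκ1
    positivity
  have hd0 : (0 : ℝ) ≤ d := Nat.cast_nonneg d
  obtain ⟨C1, hC1⟩ : ∃ C1 : ℝ, C1 = 12 * 2 ^ (d - 1) * (A : ℝ) ^ 2 := ⟨_, rfl⟩
  obtain ⟨C2, hC2⟩ : ∃ C2 : ℝ, C2 = 3 * B * (d * (2 * WA d c + 1)) := ⟨_, rfl⟩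
  obtain ⟨C3, hC3⟩ : ∃ C3 : ℝ, C3 = d * (lκ * (16 * F * κ / cR + 1)) := ⟨_, rfl⟩
  have hC1' : 0 ≤ C1 := by rw [hC1]; exact CA_nonneg _ _
  have hC2' : 0 ≤ C2 := by
    rw [hC2]
    exact mul_nonneg (by linarith) (mul_nonneg hd0 (by linarith))
  have hC3' : 0 ≤ C3 := by
    rw [hC3]
    have h1 : 0 ≤ 16 * F * κ / cR :=
      div_nonneg (mul_nonneg (mul_nonneg (by norm_num) hF0) hκ0) hcR0.le
    exact mul_nonneg hd0 (mul_nonneg hlκ0 (by linarith))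
  refine ⟨C1 + C2 + C3, by linarith, fun T₀ H hH S hS hz => ?_⟩
  have hH' : (1 : ℝ) ≤ H := by exact_mod_cast hH
  have hH0 : (0 : ℝ) < H := by linarith
  have hH00 : (0 : ℝ) ≤ H := hH0.le
  have hX : (1 : ℝ) ≤ 2 * (H : ℝ) + 1 := by linarith
  have hHX : (H : ℝ) ≤ 2 * (H : ℝ) + 1 := by linarith
  have hH2 : (1 : ℝ) ≤ (H : ℝ) ^ 2 := one_le_pow₀ hH'
  have hM := MM_big (by omega : 4 ≤ d)
  obtain ⟨q, hq⟩ : ∃ q : ℝ, q = (H : ℝ) ^ (1 / 4 : ℝ) := ⟨_, rfl⟩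
  have hq1 : 1 ≤ q := by rw [hq]; exact Real.one_le_rpow hH' (by norm_num)
  have hqq : q * q = Real.sqrt H := by
    rw [hq, ← Real.rpow_add hH0, Real.sqrt_eq_rpow]
    norm_num
  obtain ⟨hY1, hYη, hYlog⟩ := Yn_bounds (d := d) (G := G) hH hκ hη hq
  rw [← hlκ] at hYlog
  have habs : ∀ n : ℤ, |(n : ℝ)| = ((n.natAbs : ℕ) : ℝ) := by
    intro n
    rw [← Int.cast_abs, Int.abs_eq_natAbs, Int.cast_natCast]
  obtain ⟨S1, hS1⟩ : ∃ S1, S1 = S.filter (fun a => ∃ x y : ℤ, |x| ≤ |y| ∧ T₀ < y.natAbs ∧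
    y.natAbs ≤ A * H ∧ Fv (co a) d x y = 0) := ⟨_, rfl⟩
  obtain ⟨S2, hS2⟩ : ∃ S2, S2 = S.filter (fun a => ∃ x y : ℤ, Fv (co a) d x y = 0 ∧ |x| ≤ |y| ∧
        AA d h c * H ≤ |(y : ℝ)| ∧ 2 * H < y.natAbs ∧ y.natAbs ≤ B * H ^ 2) := ⟨_, rfl⟩
  obtain ⟨S3, hS3⟩ : ∃ S3, S3 = S.filter (fun a => ∃ x y : ℤ, Fv (co a) d x y = 0 ∧ |x| ≤ |y| ∧
        AA d h c * H ≤ |(y : ℝ)| ∧ 16 * (F * (H : ℝ) ^ 2) ≤ |(y : ℝ)| ∧ 2 * H < y.natAbs ∧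
        y.natAbs ≤ Yn d H G) := ⟨_, rfl⟩
  have hsub : S ⊆ S1 ∪ (S2 ∪ S3) := by
    intro a ha
    rw [hS1, hS2, hS3]
    simp only [mem_union, mem_filter]
    obtain ⟨x, y, h0, hxy, hT0, h3⟩ := hz a ha
    by_cases h1 : y.natAbs ≤ A * H
    · exact Or.inl ⟨ha, x, y, hxy, hT0, h1, h0⟩
    rw [not_le] at h1
    have h1' : (A : ℝ) * (H : ℝ) < (y.natAbs : ℝ) := by exact_mod_cast h1
    have g1 : AA d h c * H ≤ |(y : ℝ)| := by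
      rw [habs]
      exact le_trans (mul_le_mul_of_nonneg_right hAle hH00) h1'.le
    have g2 : 2 * H < y.natAbs := by
      have h3 : 2 * (H : ℝ) < (y.natAbs : ℝ) :=
        lt_of_le_of_lt (mul_le_mul_of_nonneg_right hA2 hH00) h1'
      exact_mod_cast h3
    by_cases h2 : y.natAbs ≤ B * H ^ 2
    · exact Or.inr (Or.inl ⟨ha, x, y, h0, hxy, g1, g2, h2⟩)
    rw [not_le] at h2
    refine Or.inr (Or.inr ⟨ha, x, y, h0, hxy, g1, ?_, g2, h3⟩)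
    rw [habs]
    have h4 : (B : ℝ) * (H : ℝ) ^ 2 < (y.natAbs : ℝ) := by exact_mod_cast h2
    refine le_trans ?_ h4.le
    rw [← mul_assoc]
    exact mul_le_mul_of_nonneg_right hBle (by linarith)
  have b1 := small_lin (T := T₀) (A := A) (by omega : 4 ≤ d) hH (b := b) (S := S1)
    (by rw [hS1]; exact (filter_subset _ _).trans hS)
    (fun a ha => by rw [hS1] at ha; exact (mem_filter.1 ha).2)
  rw [← hC1] at b1
  have b2 := mid_strip hH hb hh hc0 hc1 hcb (by omega : 4 ≤ d) hL (X := B * H ^ 2)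
    (S := S2) (by rw [hS2]; exact (filter_subset _ _).trans hS)
    (fun a ha => by rw [hS2] at ha; exact (mem_filter.1 ha).2)
  have hκq : 1 ≤ κ * q := by
    calc (1 : ℝ) = 1 * 1 := by norm_num
      _ ≤ κ * q := mul_le_mul hκ1 hq1 zero_le_one hκ0
  have hW1 : 1 ≤ F * (H : ℝ) ^ 2 := by
    calc (1 : ℝ) = 1 * 1 := by norm_num
      _ ≤ F * (H : ℝ) ^ 2 := mul_le_mul hF1 hH2 zero_le_one hF0
  have hWE : EA d h c * (H : ℝ) ^ 2 ≤ F * (H : ℝ) ^ 2 :=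
    mul_le_mul_of_nonneg_right (by rw [hF]; linarith) (by linarith)
  have b3 := mid_roth hH hb hh hc0 hc1 hcb (by omega : 4 ≤ d) hL hcR0 hcR1 hη0 hroth
    (E := κ * q) hκq hYη hY1 le_rfl (W := F * (H : ℝ) ^ 2) hW1 hWE
    (S := S3) (by rw [hS3]; exact (filter_subset _ _).trans hS)
    (fun a ha => by rw [hS3] at ha; exact (mem_filter.1 ha).2)
  obtain ⟨X, hXd⟩ : ∃ X : ℝ, X = 2 * (H : ℝ) + 1 := ⟨_, rfl⟩
  rw [← hXd] at b1 b2 b3 hX hHX ⊢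
  obtain ⟨Z, hZ⟩ : ∃ Z : ℝ, Z = X ^ (MM d - (d + 1) - 1) := ⟨_, rfl⟩
  have hZ0 : 0 ≤ Z := by rw [hZ]; exact pow_nonneg (by linarith) _
  have hsq0 : 0 < Real.sqrt H := Real.sqrt_pos.2 hH0
  have hsq1 : Real.sqrt H ≤ H := by
    rw [Real.sqrt_le_left hH00]
    exact le_self_pow₀ hH' two_ne_zero
  have b2' : (S2.card : ℝ) ≤ C2 / Real.sqrt H * Z := by
    refine b2.trans ?_
    rw [hC2, hZ]
    have h1 := num2 (k := MM d - (d + 1) - d) (m := MM d - (d + 1) - 1) hd0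
      hB1 hW0 hH' hX hHX (by omega)
    refine le_trans (le_of_eq ?_) h1
    push_cast
    rfl
  have b3' : (S3.card : ℝ) ≤ C3 / Real.sqrt H * Z := by
    refine b3.trans ?_
    rw [hC3, hZ]
    exact num3 (k := MM d - (d + 1) - (d - 1)) (m := MM d - (d + 1) - 1) hd0
      (by linarith [(Nat.cast_nonneg (Nat.log 2 (Yn d H G)) : (0 : ℝ) ≤ _)]) hYlog
      hF0 hκ0 hcR0 hH' hq1 hqq hX hHX (by omega)
  have b1' : (S1.card : ℝ) ≤ (24 * 2 ^ (d - 1) / ((T₀ : ℝ) + 1) ^ (d - 3)) * Z +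
      C1 / Real.sqrt H * Z := by
    rw [← hZ, add_mul] at b1
    refine b1.trans (add_le_add le_rfl ?_)
    apply mul_le_mul_of_nonneg_right _ hZ0
    exact div_le_div_of_nonneg_left hC1' hsq0 hsq1
  rw [← hZ]
  have hcard := (card_le_card hsub).trans ((card_union_le _ _).trans (add_le_add le_rfl
    (card_union_le _ _)))
  have hcard' := (Nat.cast_le (α := ℝ)).2 hcard
  simp only [Nat.cast_add] at hcard'
  refine hcard'.trans ((add_le_add b1' (add_le_add b2' b3')).trans (le_of_eq ?_))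
  ring

end Pool.Agent.K1H62.LL
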