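import Pool.Agent.R414.DN.Br

set_option autoImplicit false
set_option linter.unusedSectionVars false

/-! Integer points near the asymptotes: first order, with sharp dependence on the size. -/

open Finset

namespace Pool.Agent.K1H62.LL

open Pool.Agent.R414.DN

/-- a small value of the leading form comes from a root -/
lemma near_root {c : ℕ → ℕ → ℤ} {d : ℕ} (hd : 1 ≤ d) {h δ : ℝ} (hc : ∀ k i, |(c k i : ℝ)| ≤ h)
    (hh : 1 ≤ h) (hδ : 0 < δ) (hδ1 : δ ≤ 1)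
    (hG : ∀ t : ℝ, |t| ≤ 2 → δ ≤ |TT c d 0 t| ∨ δ ≤ |TT c d 1 t|) {t : ℝ} (ht1 : |t| ≤ 1)
    (hs : |TT c d 0 t| ≤ δ ^ 2 / (4 * d * c1 d * h)) :
    ∃ α : ℝ, |α| ≤ 2 ∧ TT c d 0 α = 0 ∧ |t - α| ≤ 2 / δ * |TT c d 0 t| ∧ |t - α| ≤ 1 := by
  have hc1 := c1_pos d
  have hd1 : (1 : ℝ) ≤ d := by exact_mod_cast hd
  have hden : 0 < 4 * d * c1 d * h := by positivity
  have hsmall : δ ^ 2 / (4 * d * c1 d * h) < δ := by
    rw [div_lt_iff₀ hden]
    have h1 : 4 * 1 * 1 * 1 ≤ 4 * d * c1 d * h := by gcongr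
    nlinarith
  have hT1 : δ ≤ |TT c d 1 t| := by
    rcases hG t (by linarith) with h | h
    · exact absurd (lt_of_le_of_lt hs hsmall) (not_lt.2 h)
    · exact h
  obtain ⟨ρ, hρ⟩ : ∃ ρ : ℝ, ρ = 2 / δ * |TT c d 0 t| := ⟨_, rfl⟩
  have hρ0 : 0 ≤ ρ := by rw [hρ]; positivity
  have hρb : d * c1 d * h * ρ ≤ δ / 2 := by
    rw [hρ]
    calc d * c1 d * h * (2 / δ * |TT c d 0 t|)
        ≤ d * c1 d * h * (2 / δ * (δ ^ 2 / (4 * d * c1 d * h))) := by gcongr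
      _ = δ / 2 := by field_simp; norm_num
  have hρ1 : ρ ≤ 1 := by
    have e1 : 1 * 1 * 1 * ρ ≤ d * c1 d * h * ρ := by gcongr
    linarith
  have hval : ∀ u : ℝ, |u| = ρ → |TT c d 0 (t + u) - (TT c d 0 t + TT c d 1 t * u)| ≤
      (d * c1 d * h * ρ) * ρ := by
    intro u hu
    obtain ⟨e, rfl⟩ : ∃ e, d = e + 1 := ⟨d - 1, by omega⟩
    rw [TT_taylor c (le_refl (e + 1)) t u, sum_range_succ', sum_range_succ']
    simp only [pow_zero, mul_one, zero_add, pow_one]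
    have : ∑ k ∈ range e, TT c (e + 1) (k + 1 + 1) t * u ^ (k + 1 + 1) + TT c (e + 1) 1 t * u +
        TT c (e + 1) 0 t - (TT c (e + 1) 0 t + TT c (e + 1) 1 t * u) =
        ∑ k ∈ range e, TT c (e + 1) (k + 1 + 1) t * u ^ (k + 1 + 1) := by ring
    rw [this]
    calc |∑ k ∈ range e, TT c (e + 1) (k + 1 + 1) t * u ^ (k + 1 + 1)|
        ≤ ∑ k ∈ range e, |TT c (e + 1) (k + 1 + 1) t * u ^ (k + 1 + 1)| := abs_sum_le_sum_abs _ _
      _ ≤ ∑ _k ∈ range e, (c1 (e + 1) * h) * ρ ^ 2 := by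
          apply sum_le_sum
          intro k _
          rw [abs_mul, abs_pow, hu]
          have h5 := TT_le hc (le_refl (e + 1)) (k + 1 + 1) (by linarith : |t| ≤ 2)
          have h6 : ρ ^ (k + 1 + 1) ≤ ρ ^ 2 := pow_le_pow_of_le_one hρ0 hρ1 (by omega)
          have h7 : 0 ≤ c1 (e + 1) * h := by positivity
          gcongr
      _ = e * ((c1 (e + 1) * h) * ρ ^ 2) := by rw [sum_const, card_range, nsmul_eq_mul]
      _ ≤ ((e + 1 : ℕ) : ℝ) * ((c1 (e + 1) * h) * ρ ^ 2) := by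
          gcongr
          omega
      _ = _ := by ring
  have hmain : δ / 2 * ρ + |TT c d 0 t| ≤ |TT c d 1 t| * ρ := by
    have e1 : |TT c d 0 t| = δ / 2 * ρ := by
      rw [hρ]; field_simp
    have e2 : δ * ρ ≤ |TT c d 1 t| * ρ := by gcongr
    have e3 : δ * ρ = δ / 2 * ρ + δ / 2 * ρ := by ring
    linarith
  have herr : (d * c1 d * h * ρ) * ρ ≤ δ / 2 * ρ := by gcongr
  have hroot : ∃ α ∈ Set.Icc (t - ρ) (t + ρ), TT c d 0 α = 0 := by
    have hp := abs_le.1 (hval ρ (abs_of_nonneg hρ0))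
    have hm := abs_le.1 (hval (-ρ) (by rw [abs_neg]; exact abs_of_nonneg hρ0))
    have hf := abs_le.1 (le_refl |TT c d 0 t|)
    have hle : t - ρ ≤ t + ρ := by linarith
    rw [← sub_eq_add_neg] at hm
    rcases abs_cases (TT c d 1 t) with ⟨h1, _⟩ | ⟨h1, _⟩
    · rw [h1] at hmain
      have := intermediate_value_Icc hle (TT_cont c d 0).continuousOn
      obtain ⟨α, h2, h3⟩ := this (Set.mem_Icc.2 ⟨(by nlinarith : TT c d 0 (t - ρ) ≤ 0),
        (by nlinarith : 0 ≤ TT c d 0 (t + ρ))⟩)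
      exact ⟨α, h2, h3⟩
    · rw [h1] at hmain
      have := intermediate_value_Icc' hle (TT_cont c d 0).continuousOn
      obtain ⟨α, h2, h3⟩ := this (Set.mem_Icc.2 ⟨(by nlinarith : TT c d 0 (t + ρ) ≤ 0),
        (by nlinarith : 0 ≤ TT c d 0 (t - ρ))⟩)
      exact ⟨α, h2, h3⟩
  obtain ⟨α, hα, hα0⟩ := hroot
  have hαt : |t - α| ≤ ρ := by
    rw [abs_le]
    constructor <;> linarith [hα.1, hα.2]
  refine ⟨α, ?_, hα0, by rw [← hρ]; exact hαt, hαt.trans hρ1⟩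
  have h1 : α = t - (t - α) := by ring
  rw [h1]
  refine (abs_sub _ _).trans ?_
  linarith

lemma TT_rows {a b : ℕ → ℕ → ℤ} {d : ℕ} (h : ∀ i, a d i = b d i) (i : ℕ) (t : ℝ) :
    TT a d i t = TT b d i t := by
  unfold TT
  refine sum_congr rfl fun j _ => ?_
  rw [h j]

section

variable {d : ℕ} {b : ℕ → ℕ → ℤ} {H : ℕ} {h c : ℝ} (hH : 1 ≤ H) (hb : ∀ k i, |(b k i : ℝ)| ≤ h)
  (hh : 1 ≤ h) (hc0 : 0 < c) (hc1 : c ≤ 1)
  (hcb : ∀ t : ℝ, |t| ≤ 2 → c ≤ |TT b d 0 t| ∨ c ≤ |TT b d 1 t|)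

/-- the threshold constant -/
noncomputable def AA (d : ℕ) (h c : ℝ) : ℝ := 4 * d ^ 2 * c1 d ^ 2 * h / c ^ 2

/-- the width constant -/
noncomputable def WA (d : ℕ) (c : ℝ) : ℝ := 2 / c * (d * c1 d)

/-- the first order constant -/
noncomputable def EA (d : ℕ) (h c : ℝ) : ℝ :=
  (d * c1 d * h * WA d c ^ 2 + d * c1 d * WA d c + d * c1 d) / c

include hH hb hh hc0 hc1 hcb in
/-- integer points are near the asymptotes -/
lemma near_asym (hd : 1 ≤ d) {a : ℕ → ℕ → ℤ} (hca : ∀ k i, |(a k i : ℝ)| ≤ (H : ℝ))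
    (hrow : ∀ i, a d i = b d i) {x y : ℤ}
    (h0 : Fv a d x y = 0) (hxy : |x| ≤ |y|) (hy : AA d h c * H ≤ |(y : ℝ)|) :
    ∃ α : ℝ, |α| ≤ 2 ∧ TT b d 0 α = 0 ∧ |(x : ℝ) / y - α| ≤ WA d c * H / |(y : ℝ)| ∧
      |(x : ℝ) / y - α| ≤ 1 := by
  have hH' : (1 : ℝ) ≤ H := by exact_mod_cast hH
  have hd1 : (1 : ℝ) ≤ d := by exact_mod_cast hd
  have hcp := c1_pos d
  have hA1 : 1 ≤ AA d h c := by
    unfold AA
    rw [le_div_iff₀ (by positivity), one_mul]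
    calc c ^ 2 ≤ 1 := pow_le_one₀ hc0.le hc1
      _ ≤ 4 * 1 ^ 2 * 1 ^ 2 * 1 := by norm_num
      _ ≤ _ := by gcongr
  have hy0 : 0 < |(y : ℝ)| := lt_of_lt_of_le (by positivity) hy
  have hyne : y ≠ 0 := by
    rintro rfl
    simp at hy0
  have ht1 : |(x : ℝ) / y| ≤ 1 := by
    rw [abs_div, div_le_one hy0, ← Int.cast_abs, ← Int.cast_abs]
    exact_mod_cast hxy
  have hs := lead_small hca hyne hxy h0
  rw [TT_rows hrow] at hs
  have hs2 : |TT b d 0 ((x : ℝ) / y)| ≤ c ^ 2 / (4 * d * c1 d * h) := by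
    refine hs.trans ?_
    rw [div_le_div_iff₀ hy0 (by positivity)]
    have e1 : AA d h c * H * c ^ 2 = d * c1 d * H * (4 * d * c1 d * h) := by
      unfold AA
      field_simp
    rw [← e1]
    nlinarith [mul_le_mul_of_nonneg_left hy (by positivity : (0 : ℝ) ≤ c ^ 2)]
  obtain ⟨α, h1, h2, h3, h4⟩ := near_root hd hb hh hc0 hc1 hcb ht1 hs2
  refine ⟨α, h1, h2, h3.trans ?_, h4⟩
  calc 2 / c * |TT b d 0 ((x : ℝ) / y)| ≤ 2 / c * (d * c1 d * H / |(y : ℝ)|) := by gcongr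
    _ = _ := by unfold WA; ring

include hH hb hh hc0 hc1 hcb in
/-- first order expansion -/
lemma first_order (hd : 2 ≤ d) {a : ℕ → ℕ → ℤ} (hca : ∀ k i, |(a k i : ℝ)| ≤ (H : ℝ))
    (hrow : ∀ i, a d i = b d i) {x y : ℤ}
    (h0 : Fv a d x y = 0) (hxy : |x| ≤ |y|) (hy : AA d h c * H ≤ |(y : ℝ)|) :
    ∃ α : ℝ, |α| ≤ 2 ∧ TT b d 0 α = 0 ∧
      |(x : ℝ) - α * y - bet a d α| ≤ EA d h c * (H : ℝ) ^ 2 / |(y : ℝ)| := by
  obtain ⟨α, hα2, hα0, hw, hw1⟩ := near_asym hH hb hh hc0 hc1 hcb (by omega) hca hrow h0 hxy hy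
  refine ⟨α, hα2, hα0, ?_⟩
  have hH' : (1 : ℝ) ≤ H := by exact_mod_cast hH
  have hd1 : (1 : ℝ) ≤ d := by exact_mod_cast (by omega : 1 ≤ d)
  have hcp := c1_pos d
  have hA1 : 1 ≤ AA d h c := by
    unfold AA
    rw [le_div_iff₀ (by positivity), one_mul]
    calc c ^ 2 ≤ 1 := pow_le_one₀ hc0.le hc1
      _ ≤ 4 * 1 ^ 2 * 1 ^ 2 * 1 := by norm_num
      _ ≤ _ := by gcongr
  have hy0 : 0 < |(y : ℝ)| := lt_of_lt_of_le (by positivity) hy
  have hyne : y ≠ 0 := by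
    rintro rfl
    simp at hy0
  have hy' : (y : ℝ) ≠ 0 := by exact_mod_cast hyne
  have hy1 : 1 ≤ |(y : ℝ)| := by
    rw [← Int.cast_abs]
    exact_mod_cast Int.one_le_abs hyne
  obtain ⟨t, ht⟩ : ∃ t : ℝ, t = (x : ℝ) / y := ⟨_, rfl⟩
  rw [← ht] at hw hw1
  have ht1 : |t| ≤ 1 := by
    rw [ht, abs_div, div_le_one hy0, ← Int.cast_abs, ← Int.cast_abs]
    exact_mod_cast hxy
  have hW0 : 0 ≤ WA d c := by unfold WA; positivity
  -- the derivative
  have hder : c ≤ |TT b d 1 α| := by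
    rcases hcb α hα2 with h | h
    · rw [hα0, abs_zero] at h
      exact absurd h (not_le.2 hc0)
    · exact h
  have hder0 : 0 < |TT b d 1 α| := lt_of_lt_of_le hc0 hder
  have hderne : TT b d 1 α ≠ 0 := abs_pos.1 hder0
  -- the equation
  have heq := Fv_eq a d x y hyne
  rw [h0, Int.cast_zero, ← ht] at heq
  obtain ⟨e, rfl⟩ : ∃ e, d = e + 2 := ⟨d - 2, by omega⟩
  have e1 : e + 2 - 1 = e + 1 := rfl
  rw [sum_range_succ, sum_range_succ] at heq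
  obtain ⟨R, hR⟩ : ∃ R : ℝ, R = ∑ k ∈ range (e + 1), TT a k 0 t * ((y : ℝ) ^ k /
    (y : ℝ) ^ (e + 1)) := ⟨_, rfl⟩
  have hR1 : ∑ k ∈ range (e + 1), (y : ℝ) ^ k * TT a k 0 t = (y : ℝ) ^ (e + 1) * R := by
    rw [hR, mul_sum]
    refine sum_congr rfl fun k _ => ?_
    have h4 : (y : ℝ) ^ (e + 1) ≠ 0 := pow_ne_zero _ hy'
    field_simp
  have hRb : |R| ≤ (e + 2 : ℕ) * c1 (e + 2) * H / |(y : ℝ)| := by
    rw [hR]
    calc |∑ k ∈ range (e + 1), TT a k 0 t * ((y : ℝ) ^ k / (y : ℝ) ^ (e + 1))|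
        ≤ ∑ k ∈ range (e + 1), |TT a k 0 t * ((y : ℝ) ^ k / (y : ℝ) ^ (e + 1))| :=
          abs_sum_le_sum_abs _ _
      _ ≤ ∑ _k ∈ range (e + 1), (c1 (e + 2) * H) * (1 / |(y : ℝ)|) := by
          apply sum_le_sum
          intro k hk
          rw [mem_range] at hk
          rw [abs_mul, abs_div, abs_pow, abs_pow]
          have h5 := TT_le hca (by omega : k ≤ e + 2) 0 (by linarith : |t| ≤ 2)
          have h6 : |(y : ℝ)| ^ k / |(y : ℝ)| ^ (e + 1) ≤ 1 / |(y : ℝ)| := by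
            rw [div_le_div_iff₀ (by positivity) hy0, one_mul, ← pow_succ]
            exact pow_le_pow_right₀ hy1 (by omega)
          have h7 : 0 ≤ c1 (e + 2) * H := by positivity
          gcongr
      _ = (e + 1 : ℕ) * ((c1 (e + 2) * H) * (1 / |(y : ℝ)|)) := by
          rw [sum_const, card_range, nsmul_eq_mul]
      _ ≤ (e + 2 : ℕ) * ((c1 (e + 2) * H) * (1 / |(y : ℝ)|)) := by
          gcongr
          omega
      _ = _ := by ring
  have hmain : (y : ℝ) * TT b (e + 2) 0 t + TT a (e + 1) 0 t + R = 0 := by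
    rw [hR1, TT_rows hrow] at heq
    have h4 : (y : ℝ) ^ (e + 1) ≠ 0 := pow_ne_zero _ hy'
    apply mul_left_cancel₀ h4
    rw [mul_zero]
    have e2 : (y : ℝ) ^ (e + 2) = (y : ℝ) ^ (e + 1) * y := pow_succ _ _
    rw [e2] at heq
    linarith
  -- Taylor expansions
  have htα : t = α + (t - α) := by ring
  have hT0 : |TT b (e + 2) 0 t - TT b (e + 2) 1 α * (t - α)| ≤
      (e + 2 : ℕ) * c1 (e + 2) * h * |t - α| ^ 2 := by
    conv_lhs => rw [htα]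
    rw [TT_taylor b (le_refl (e + 2)) α (t - α), sum_range_succ', sum_range_succ', hα0]
    simp only [pow_zero, zero_mul, add_zero, zero_add, pow_one, add_sub_cancel_left]
    rw [add_sub_assoc]
    have h9 : TT b (e + 2) 1 α * (t - α) - TT b (e + 2) 1 α * (α + (t - α) - α) = 0 := by
      ring
    have h10 : α + (t - α) - α = t - α := by ring
    have : ∑ k ∈ range (e + 1), TT b (e + 2) (k + 1 + 1) α * (t - α) ^ (k + 1 + 1) +
        (TT b (e + 2) 1 α * (t - α) - TT b (e + 2) 1 α * (t - α)) =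
        ∑ k ∈ range (e + 1), TT b (e + 2) (k + 1 + 1) α * (t - α) ^ (k + 1 + 1) := by ring
    rw [this]
    calc |∑ k ∈ range (e + 1), TT b (e + 2) (k + 1 + 1) α * (t - α) ^ (k + 1 + 1)|
        ≤ ∑ k ∈ range (e + 1), |TT b (e + 2) (k + 1 + 1) α * (t - α) ^ (k + 1 + 1)| :=
          abs_sum_le_sum_abs _ _
      _ ≤ ∑ _k ∈ range (e + 1), (c1 (e + 2) * h) * |t - α| ^ 2 := by
          apply sum_le_sum
          intro k _
          rw [abs_mul, abs_pow]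
          have h5 := TT_le hb (le_refl (e + 2)) (k + 1 + 1) hα2
          have h6 : |t - α| ^ (k + 1 + 1) ≤ |t - α| ^ 2 :=
            pow_le_pow_of_le_one (abs_nonneg _) hw1 (by omega)
          have h7 : 0 ≤ c1 (e + 2) * h := by positivity
          gcongr
      _ = (e + 1 : ℕ) * ((c1 (e + 2) * h) * |t - α| ^ 2) := by
          rw [sum_const, card_range, nsmul_eq_mul]
      _ ≤ (e + 2 : ℕ) * ((c1 (e + 2) * h) * |t - α| ^ 2) := by
          gcongr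
          omega
      _ = _ := by ring
  have hT1 := TT_lip hca (by omega : e + 1 ≤ e + 2) 0 (by linarith : |t| ≤ 2) hα2
  -- conclusion
  have hbet : TT b (e + 2) 1 α * bet a (e + 2) α = -(TT a (e + 1) 0 α) := by
    unfold bet
    rw [e1, TT_rows hrow]
    field_simp
  have hx : (x : ℝ) - α * y = (t - α) * y := by
    rw [ht]
    field_simp
  rw [hx]
  have hfin : TT b (e + 2) 1 α * ((t - α) * y - bet a (e + 2) α) =
      -(y * (TT b (e + 2) 0 t - TT b (e + 2) 1 α * (t - α))) -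
      (TT a (e + 1) 0 t - TT a (e + 1) 0 α) - R := by
    rw [mul_sub, hbet]
    linarith
  have hle : |TT b (e + 2) 1 α| * |(t - α) * y - bet a (e + 2) α| ≤
      ((e + 2 : ℕ) * c1 (e + 2) * h * WA (e + 2) c ^ 2 +
        (e + 2 : ℕ) * c1 (e + 2) * WA (e + 2) c + (e + 2 : ℕ) * c1 (e + 2)) *
        ((H : ℝ) ^ 2 / |(y : ℝ)|) := by
    rw [← abs_mul, hfin]
    have g1 : |(y : ℝ) * (TT b (e + 2) 0 t - TT b (e + 2) 1 α * (t - α))| ≤
        ((e + 2 : ℕ) * c1 (e + 2) * h * WA (e + 2) c ^ 2) * ((H : ℝ) ^ 2 / |(y : ℝ)|) := by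
      rw [abs_mul]
      calc |(y : ℝ)| * |TT b (e + 2) 0 t - TT b (e + 2) 1 α * (t - α)|
          ≤ |(y : ℝ)| * ((e + 2 : ℕ) * c1 (e + 2) * h * |t - α| ^ 2) := by gcongr
        _ ≤ |(y : ℝ)| * ((e + 2 : ℕ) * c1 (e + 2) * h * (WA (e + 2) c * H / |(y : ℝ)|) ^ 2) := by
            gcongr
        _ = _ := by field_simp
    have g2 : |TT a (e + 1) 0 t - TT a (e + 1) 0 α| ≤
        ((e + 2 : ℕ) * c1 (e + 2) * WA (e + 2) c) * ((H : ℝ) ^ 2 / |(y : ℝ)|) := by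
      refine hT1.trans ?_
      calc ((e + 2 : ℕ) : ℝ) * c1 (e + 2) * H * |t - α|
          ≤ ((e + 2 : ℕ) : ℝ) * c1 (e + 2) * H * (WA (e + 2) c * H / |(y : ℝ)|) := by gcongr
        _ = _ := by ring
    have g3 : |R| ≤ ((e + 2 : ℕ) * c1 (e + 2)) * ((H : ℝ) ^ 2 / |(y : ℝ)|) := by
      refine hRb.trans ?_
      calc ((e + 2 : ℕ) : ℝ) * c1 (e + 2) * H / |(y : ℝ)|
          = ((e + 2 : ℕ) * c1 (e + 2)) * ((H : ℝ) / |(y : ℝ)|) := by ring
        _ ≤ _ := by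
            have : (H : ℝ) ≤ (H : ℝ) ^ 2 := by nlinarith
            gcongr
    calc |-(y * (TT b (e + 2) 0 t - TT b (e + 2) 1 α * (t - α))) -
          (TT a (e + 1) 0 t - TT a (e + 1) 0 α) - R|
        ≤ |(y : ℝ) * (TT b (e + 2) 0 t - TT b (e + 2) 1 α * (t - α))| +
          |TT a (e + 1) 0 t - TT a (e + 1) 0 α| + |R| := by
          refine (abs_sub _ _).trans ?_
          gcongr
          refine (abs_sub _ _).trans ?_
          rw [abs_neg]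
      _ ≤ _ := by linarith
  have hle2 : c * |(t - α) * y - bet a (e + 2) α| ≤
      ((e + 2 : ℕ) * c1 (e + 2) * h * WA (e + 2) c ^ 2 +
        (e + 2 : ℕ) * c1 (e + 2) * WA (e + 2) c + (e + 2 : ℕ) * c1 (e + 2)) *
        ((H : ℝ) ^ 2 / |(y : ℝ)|) :=
    le_trans (mul_le_mul_of_nonneg_right hder (abs_nonneg _)) hle
  unfold EA
  rw [div_mul_eq_mul_div, div_div, mul_comm c, ← div_div, le_div_iff₀ hc0, mul_comm _ c,
    mul_div_assoc]
  exact hle2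

end

end Pool.Agent.K1H62.LL
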