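import Pool.Agent.R414.DU.Lw

set_option autoImplicit false
set_option linter.unusedSectionVars false

/-! Integer vectors of a box with a linear form in a window. -/

open Finset MeasureTheory Filter Topology
open scoped Pointwise

namespace Pool.Agent.K1H62.LL

open Pool.Agent.R414.DN Pool.Agent.R414.DU

section gen

variable {ι : Type} [Fintype ι] [DecidableEq ι]

/-- the body -/
def Kb (w : ι → ℤ) : Set (ι → ℝ) := {u | (∀ i, |u i| ≤ 1 / 2) ∧ |∑ i, u i * w i| ≤ 1 / 2}

lemma Kb_bounded (w : ι → ℤ) : Bornology.IsBounded (Kb w) := by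
  refine (Metric.isBounded_closedBall (x := (0 : ι → ℝ)) (r := 1 / 2)).subset ?_
  intro u hu
  rw [mem_closedBall_zero_iff, pi_norm_le_iff_of_nonneg (by norm_num)]
  intro i
  rw [Real.norm_eq_abs]
  exact hu.1 i

lemma Kb_closed (w : ι → ℤ) : IsClosed (Kb w) := by
  have h1 : Kb w = (⋂ i, {u : ι → ℝ | |u i| ≤ 1 / 2}) ∩ {u | |∑ i, u i * w i| ≤ 1 / 2} := by
    ext u
    simp [Kb]
  rw [h1]
  apply IsClosed.inter
  · apply isClosed_iInter
    intro i
    exact isClosed_le (by fun_prop) continuous_const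
  · exact isClosed_le (by fun_prop) continuous_const

lemma Kb_convex (w : ι → ℤ) : Convex ℝ (Kb w) := by
  intro u hu v hv s t hs ht hst
  constructor
  · intro i
    have h1 := hu.1 i
    have h2 := hv.1 i
    simp only [Pi.add_apply, Pi.smul_apply, smul_eq_mul]
    refine (abs_add_le _ _).trans ?_
    rw [abs_mul, abs_mul, abs_of_nonneg hs, abs_of_nonneg ht]
    nlinarith
  · have h1 := hu.2
    have h2 := hv.2
    have h3 : ∑ i, (s • u + t • v) i * (w i : ℝ) =
        s * ∑ i, u i * w i + t * ∑ i, v i * w i := by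
      rw [mul_sum, mul_sum, ← sum_add_distrib]
      refine sum_congr rfl fun i _ => ?_
      simp only [Pi.add_apply, Pi.smul_apply, smul_eq_mul]
      ring
    rw [h3]
    refine (abs_add_le _ _).trans ?_
    rw [abs_mul, abs_mul, abs_of_nonneg hs, abs_of_nonneg ht]
    nlinarith

open Classical in
/-- the vectors of the box with a linear form in a window about `s` -/
noncomputable def cw (w : ι → ℤ) (s : ℤ) (H : ℕ) : Finset (ι → ℤ) :=
  (ibox ι H).filter fun a => |s - ∑ i, a i * w i| ≤ H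

lemma mem_cw {w : ι → ℤ} {s : ℤ} {H : ℕ} {a : ι → ℤ} :
    a ∈ cw w s H ↔ a ∈ ibox ι H ∧ |s - ∑ i, a i * w i| ≤ H := by
  unfold cw
  rw [mem_filter]

lemma card_cw0 (w : ι → ℤ) {H : ℕ} (hH : 1 ≤ H) :
    Nat.card ↑(Kb w ∩ ((2 * H : ℕ) : ℝ)⁻¹ • (Submodule.span ℤ (Set.range (Pi.basisFun ℝ ι)) :
      Set (ι → ℝ))) = (cw w 0 H).card := by
  classical
  have : NeZero (2 * H) := ⟨by omega⟩
  have hH0 : (0 : ℝ) < H := by exact_mod_cast hH
  have hn0 : (0 : ℝ) < ((2 * H : ℕ) : ℝ) := by push_cast; linarith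
  have hn' : ((2 * H : ℕ) : ℝ) ≠ 0 := hn0.ne'
  have hab : ∀ z : ℤ, |(z : ℝ) / ((2 * H : ℕ) : ℝ)| ≤ 1 / 2 ↔ |z| ≤ (H : ℤ) := by
    intro z
    rw [abs_div, abs_of_pos hn0, div_le_iff₀ hn0]
    push_cast
    have e1 : (1 : ℝ) / 2 * (2 * (H : ℝ)) = H := by ring
    rw [e1, ← Int.cast_abs]
    constructor
    · intro h
      exact_mod_cast h
    · intro h
      exact_mod_cast h
  have himg : Kb w ∩ ((2 * H : ℕ) : ℝ)⁻¹ • (Submodule.span ℤ (Set.range (Pi.basisFun ℝ ι)) :
      Set (ι → ℝ)) = (fun (x : ι → ℤ) (i : ι) => (x i : ℝ) / ((2 * H : ℕ) : ℝ)) ''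
        ((cw w 0 H : Finset (ι → ℤ)) : Set (ι → ℤ)) := by
    ext v
    constructor
    · rintro ⟨h1, h2⟩
      have h3 := (BoxIntegral.unitPartition.mem_smul_span_iff (n := 2 * H) (v := v)).1 h2
      choose x hx using h3
      have hxv : ∀ i, (x i : ℝ) / ((2 * H : ℕ) : ℝ) = v i := by
        intro i
        have := hx i
        rw [div_eq_iff hn', mul_comm]
        simpa using this
      refine ⟨x, ?_, ?_⟩
      · rw [mem_coe, mem_cw, mem_ibox]
        constructor
        · intro i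
          rw [← hab, hxv]
          exact h1.1 i
        · rw [zero_sub, abs_neg, ← hab]
          have h4 := h1.2
          have h5 : (((∑ i, x i * w i : ℤ)) : ℝ) / ((2 * H : ℕ) : ℝ) = ∑ i, v i * w i := by
            push_cast
            rw [sum_div]
            refine sum_congr rfl fun i _ => ?_
            rw [← hxv i]
            push_cast
            ring
          rw [h5]
          exact h4
      · funext i
        exact hxv i
    · rintro ⟨x, hx, rfl⟩
      rw [mem_coe, mem_cw, mem_ibox] at hx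
      refine ⟨⟨fun i => ?_, ?_⟩, ?_⟩
      · exact (hab _).2 (hx.1 i)
      · have h4 := hx.2
        rw [zero_sub, abs_neg, ← hab] at h4
        have h5 : (((∑ i, x i * w i : ℤ)) : ℝ) / ((2 * H : ℕ) : ℝ) =
            ∑ i, (x i : ℝ) / ((2 * H : ℕ) : ℝ) * w i := by
          push_cast
          rw [sum_div]
          refine sum_congr rfl fun i _ => ?_
          ring
        rw [h5] at h4
        exact h4
      · refine (BoxIntegral.unitPartition.mem_smul_span_iff (n := 2 * H)).2 fun i => ⟨x i, ?_⟩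
        change ((x i : ℤ) : ℝ) = ((2 * H : ℕ) : ℝ) * ((x i : ℝ) / ((2 * H : ℕ) : ℝ))
        field_simp
  rw [himg, Nat.card_coe_set_eq, Set.ncard_image_of_injective, Set.ncard_coe_finset]
  intro x y hxy
  funext i
  have h1 := congrFun hxy i
  simp only at h1
  have h2 := (div_left_inj' hn').mp h1
  exact_mod_cast h2

lemma tendsto_cw0 (w : ι → ℤ) :
    Tendsto (fun H : ℕ => ((cw w 0 H).card : ℝ) / (2 * (H : ℝ)) ^ (Fintype.card ι)) atTop
      (𝓝 (volume.real (Kb w))) := by
  have h1 := tendsto_card_div_pow_atTop_volume (Kb w) (Kb_bounded w)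
    (Kb_closed w).measurableSet ((Kb_convex w).addHaar_frontier volume)
  have h2 : Tendsto (fun H : ℕ => 2 * H) atTop atTop :=
    tendsto_atTop_mono (fun n => by simp only [id]; omega) tendsto_id
  have h3 := h1.comp h2
  refine h3.congr' ?_
  filter_upwards [eventually_ge_atTop 1] with H hH
  simp only [Function.comp]
  rw [card_cw0 w hH]
  push_cast
  rfl

/-- one value of a linear form -/
lemma card_val {w : ι → ℤ} {i₀ : ι} (hi : w i₀ ≠ 0) (v : ℤ) (H : ℕ) :
    ((ibox ι H).filter fun a => ∑ i, a i * w i = v).card ≤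
      (2 * H + 1) ^ (Fintype.card ι - 1) := by
  classical
  have key := card_fiber (H := H) (S := (ibox ι H).filter fun a => ∑ i, a i * w i = v)
    (filter_subset _ _) {i₀} 1 ?_
  · rw [card_singleton, one_mul] at key
    exact key
  intro b T hT hTb
  rw [card_le_one]
  intro a ha a' ha'
  have h1 := (mem_filter.1 (hT ha)).2
  have h2 := (mem_filter.1 (hT ha')).2
  have hag : ∀ i, i ≠ i₀ → a i = a' i := by
    intro i hi
    rw [hTb a ha i (by rwa [mem_singleton]), hTb a' ha' i (by rwa [mem_singleton])]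
  have h3 : (∑ i, a i * w i) - ∑ i, a' i * w i = (a i₀ - a' i₀) * w i₀ := by
    rw [← sum_sub_distrib, sum_eq_single i₀]
    · ring
    · intro i _ hi
      rw [hag i hi, sub_self]
    · intro h
      exact absurd (mem_univ _) h
  rw [h1, h2, sub_self] at h3
  have h4 := (mul_eq_zero.1 h3.symm).resolve_right hi
  funext i
  by_cases h : i = i₀
  · rw [h]
    linarith
  · exact hag i h

/-- the window can be shifted -/
lemma card_shift {w : ι → ℤ} {i₀ : ι} (hi : w i₀ ≠ 0) (s : ℤ) (H : ℕ) :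
    (cw w s H).card ≤ (cw w 0 H).card + (4 * s.natAbs + 2) * (2 * H + 1) ^ (Fintype.card ι - 1) ∧
    (cw w 0 H).card ≤ (cw w s H).card + (4 * s.natAbs + 2) * (2 * H + 1) ^ (Fintype.card ι - 1) := by
  classical
  obtain ⟨n, hn⟩ : ∃ n : ℕ, n = s.natAbs := ⟨_, rfl⟩
  rw [← hn]
  obtain ⟨V, hV⟩ : ∃ V : Finset ℤ, V = Icc ((H : ℤ) - n) (H + n) ∪ Icc (-(H : ℤ) - n) (-H + n) :=
    ⟨_, rfl⟩
  obtain ⟨D, hD⟩ : ∃ D : Finset (ι → ℤ), D = V.biUnion fun v =>
    (ibox ι H).filter fun a => ∑ i, a i * w i = v := ⟨_, rfl⟩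
  have hVc : V.card ≤ 4 * n + 2 := by
    rw [hV]
    refine (card_union_le _ _).trans ?_
    rw [Int.card_Icc, Int.card_Icc]
    omega
  have hDc : D.card ≤ (4 * n + 2) * (2 * H + 1) ^ (Fintype.card ι - 1) := by
    rw [hD]
    refine card_biUnion_le.trans ?_
    calc ∑ v ∈ V, ((ibox ι H).filter fun a => ∑ i, a i * w i = v).card
        ≤ ∑ _v ∈ V, (2 * H + 1) ^ (Fintype.card ι - 1) := sum_le_sum fun v _ => card_val hi v H
      _ = V.card * (2 * H + 1) ^ (Fintype.card ι - 1) := by rw [sum_const, smul_eq_mul]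
      _ ≤ _ := Nat.mul_le_mul_right _ hVc
  have hs : |s| = n := by rw [hn, Int.abs_eq_natAbs]
  constructor
  · have h1 : cw w s H ⊆ cw w 0 H ∪ D := by
      intro a ha
      rw [mem_cw] at ha
      rw [mem_union, mem_cw, hD, mem_biUnion]
      by_cases h : |0 - ∑ i, a i * w i| ≤ H
      · exact Or.inl ⟨ha.1, h⟩
      · right
        obtain ⟨t, ht⟩ : ∃ t, t = ∑ i, a i * w i := ⟨_, rfl⟩
        rw [← ht] at ha h
        refine ⟨t, ?_, ?_⟩
        · rw [hV, mem_union, mem_Icc, mem_Icc]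
          rw [abs_le] at ha
          rw [abs_le, not_and_or, not_le, not_le] at h
          have h5 := abs_le.1 hs.le
          omega
        · rw [mem_filter]
          exact ⟨ha.1, ht.symm⟩
    exact (card_le_card h1).trans ((card_union_le _ _).trans (Nat.add_le_add_left hDc _))
  · have h1 : cw w 0 H ⊆ cw w s H ∪ D := by
      intro a ha
      rw [mem_cw] at ha
      rw [mem_union, mem_cw, hD, mem_biUnion]
      by_cases h : |s - ∑ i, a i * w i| ≤ H
      · exact Or.inl ⟨ha.1, h⟩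
      · right
        obtain ⟨t, ht⟩ : ∃ t, t = ∑ i, a i * w i := ⟨_, rfl⟩
        rw [← ht] at ha h
        refine ⟨t, ?_, ?_⟩
        · rw [hV, mem_union, mem_Icc, mem_Icc]
          rw [abs_le] at ha
          rw [abs_le, not_and_or, not_le, not_le] at h
          have h5 := abs_le.1 hs.le
          omega
        · rw [mem_filter]
          exact ⟨ha.1, ht.symm⟩
    exact (card_le_card h1).trans ((card_union_le _ _).trans (Nat.add_le_add_left hDc _))

/-- the error of the shift is negligible -/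
lemma tendsto_err (n k : ℕ) (hn : 1 ≤ n) :
    Tendsto (fun H : ℕ => ((k * (2 * H + 1) ^ (n - 1) : ℕ) : ℝ) / (2 * (H : ℝ)) ^ n) atTop
      (𝓝 0) := by
  have h1 : Tendsto (fun H : ℕ => (k * 2 ^ (n - 1) : ℝ) / (2 * (H : ℝ))) atTop (𝓝 0) :=
    Tendsto.const_div_atTop (tendsto_natCast_atTop_atTop.const_mul_atTop two_pos) _
  refine squeeze_zero' ?_ ?_ h1
  · filter_upwards with H
    positivity
  · filter_upwards [eventually_ge_atTop 1] with H hH
    have hH' : (1 : ℝ) ≤ H := by exact_mod_cast hH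
    have hH0 : (0 : ℝ) < H := by linarith
    obtain ⟨m, rfl⟩ : ∃ m, n = m + 1 := ⟨n - 1, by omega⟩
    rw [Nat.add_sub_cancel]
    push_cast
    rw [div_le_div_iff₀ (by positivity) (by positivity)]
    have h2 : (2 * (H : ℝ) + 1) ^ m ≤ 2 ^ m * (2 * (H : ℝ)) ^ m := by
      rw [← mul_pow]
      gcongr
      linarith
    calc k * (2 * (H : ℝ) + 1) ^ m * (2 * H) ≤ k * (2 ^ m * (2 * (H : ℝ)) ^ m) * (2 * H) := by
          gcongr
      _ = _ := by rw [pow_succ]; ring

theorem tendsto_cw {w : ι → ℤ} {s : ℤ} (h : (∃ i, w i ≠ 0) ∨ s = 0) :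
    Tendsto (fun H : ℕ => ((cw w s H).card : ℝ) / (2 * (H : ℝ)) ^ (Fintype.card ι)) atTop
      (𝓝 (volume.real (Kb w))) := by
  by_cases hs : s = 0
  · rw [hs]
    exact tendsto_cw0 w
  obtain ⟨i₀, hi⟩ := h.resolve_right hs
  have hn : 1 ≤ Fintype.card ι := Fintype.card_pos_iff.2 ⟨i₀⟩
  have h1 := tendsto_cw0 w
  have h2 := tendsto_err (Fintype.card ι) (4 * s.natAbs + 2) hn
  have h3 := h1.sub h2
  have h4 := h1.add h2
  rw [sub_zero] at h3
  rw [add_zero] at h4
  refine tendsto_of_tendsto_of_tendsto_of_le_of_le h3 h4 ?_ ?_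
  · intro H
    simp only
    rw [← sub_div]
    have h5 := (card_shift hi s H).2
    have h6 : ((cw w 0 H).card : ℝ) ≤ ((cw w s H).card : ℝ) +
        (((4 * s.natAbs + 2) * (2 * H + 1) ^ (Fintype.card ι - 1) : ℕ) : ℝ) := by exact_mod_cast h5
    gcongr
    linarith
  · intro H
    simp only
    rw [← add_div]
    have h5 := (card_shift hi s H).1
    have h6 : ((cw w s H).card : ℝ) ≤ ((cw w 0 H).card : ℝ) +
        (((4 * s.natAbs + 2) * (2 * H + 1) ^ (Fintype.card ι - 1) : ℕ) : ℝ) := by exact_mod_cast h5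
    gcongr

end gen

end Pool.Agent.K1H62.LL
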