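import Pool.Agent.R414.DN.Gen

set_option autoImplicit false
set_option linter.unusedSectionVars false

/-! Integer points close to a line of algebraic irrational slope. -/

open Finset

namespace Pool.Agent.K1H62.LL

open Pool.Agent.R414.DN

/-- pairs near a line with a slope that is not close to rational numbers with small denominators -/
lemma pair_sep {α g E : ℝ} {H V : ℕ} (hg2 : 2 * g < 1)
    (hsep : ∀ q : ℕ, 1 ≤ q → q ≤ V → ∀ p : ℤ, 2 * g < |q * α - p|) (P : Finset (ℤ × ℤ))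
    (hP : ∀ z ∈ P, |z.2| ≤ H) (h : ∀ z ∈ P, |(z.1 : ℝ) + z.2 * α + E| ≤ g) :
    P.card ≤ 2 * H / (V + 1) + 1 := by
  classical
  rw [← card_range (2 * H / (V + 1) + 1)]
  apply card_le_card_of_injOn (fun z => ((z.2 + H) / ((V : ℤ) + 1)).toNat)
  · intro z hz
    rw [mem_coe] at hz
    have h1 := abs_le.1 (hP z hz)
    simp only [coe_range, Set.mem_Iio]
    have h2 : (z.2 + H) / ((V : ℤ) + 1) ≤ ((2 * H / (V + 1) : ℕ) : ℤ) := by
      push_cast
      apply Int.ediv_le_ediv (by positivity)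
      linarith
    exact Nat.lt_succ_of_le (Int.toNat_le.2 h2)
  · intro z hz z' hz' hzz
    rw [mem_coe] at hz hz'
    have h1 := abs_le.1 (hP z hz)
    have h2 := abs_le.1 (hP z' hz')
    simp only at hzz
    have hV0 : (0 : ℤ) < (V : ℤ) + 1 := by positivity
    have e1 : 0 ≤ (z.2 + H) / ((V : ℤ) + 1) := Int.ediv_nonneg (by linarith) hV0.le
    have e2 : 0 ≤ (z'.2 + H) / ((V : ℤ) + 1) := Int.ediv_nonneg (by linarith) hV0.le
    have e3 : (z.2 + H) / ((V : ℤ) + 1) = (z'.2 + H) / ((V : ℤ) + 1) := by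
      rw [← Int.toNat_of_nonneg e1, ← Int.toNat_of_nonneg e2, hzz]
    have f1 := Int.mul_ediv_add_emod (z.2 + H) ((V : ℤ) + 1)
    have f2 := Int.mul_ediv_add_emod (z'.2 + H) ((V : ℤ) + 1)
    have f3 := Int.emod_nonneg (z.2 + H) hV0.ne'
    have f4 := Int.emod_nonneg (z'.2 + H) hV0.ne'
    have f5 := Int.emod_lt_of_pos (z.2 + H) hV0
    have f6 := Int.emod_lt_of_pos (z'.2 + H) hV0
    rw [e3] at f1
    have hlt : (z.2 - z'.2).natAbs ≤ V := by omega
    have hdiff : |((z.1 - z'.1 : ℤ) : ℝ) + ((z.2 - z'.2 : ℤ) : ℝ) * α| ≤ 2 * g := by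
      have g1 := abs_le.1 (h z hz)
      have g2 := abs_le.1 (h z' hz')
      push_cast
      rw [abs_le]
      constructor <;> nlinarith
    by_cases h0 : z.2 = z'.2
    · rw [h0, sub_self, Int.cast_zero, zero_mul, add_zero] at hdiff
      have h3 : |((z.1 - z'.1 : ℤ) : ℝ)| < 1 := lt_of_le_of_lt hdiff hg2
      rw [← Int.cast_abs] at h3
      have h4 : |z.1 - z'.1| < 1 := by exact_mod_cast h3
      have h5 : z.1 - z'.1 = 0 := Int.abs_lt_one_iff.1 h4
      exact Prod.ext (by linarith) h0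
    · exfalso
      have hq1 : 1 ≤ (z.2 - z'.2).natAbs := by omega
      rcases le_total 0 (z.2 - z'.2) with hs | hs
      · have h3 := hsep _ hq1 hlt (-(z.1 - z'.1))
        have h4 : (((z.2 - z'.2).natAbs : ℕ) : ℝ) = ((z.2 - z'.2 : ℤ) : ℝ) := by
          rw [← Int.cast_natCast, Int.natCast_natAbs, abs_of_nonneg hs]
        rw [h4] at h3
        have h5 : ((z.2 - z'.2 : ℤ) : ℝ) * α - ((-(z.1 - z'.1) : ℤ) : ℝ) =
          ((z.1 - z'.1 : ℤ) : ℝ) + ((z.2 - z'.2 : ℤ) : ℝ) * α := by push_cast; ring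
        rw [h5] at h3
        linarith
      · have h3 := hsep _ hq1 hlt (z.1 - z'.1)
        have h4 : (((z.2 - z'.2).natAbs : ℕ) : ℝ) = -((z.2 - z'.2 : ℤ) : ℝ) := by
          rw [← Int.cast_natCast, Int.natCast_natAbs, abs_of_nonpos hs]
          push_cast
          ring
        rw [h4] at h3
        have h5 : -((z.2 - z'.2 : ℤ) : ℝ) * α - ((z.1 - z'.1 : ℤ) : ℝ) =
          -(((z.1 - z'.1 : ℤ) : ℝ) + ((z.2 - z'.2 : ℤ) : ℝ) * α) := by push_cast; ring
        rw [h5, abs_neg] at h3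
        linarith

section

variable {α cR η W E Y : ℝ} (hcR : 0 < cR) (hcR1 : cR ≤ 1) (hη : 0 < η)
  (hroth : ∀ q : ℕ, 1 ≤ q → ∀ p : ℤ, cR ≤ (q : ℝ) ^ (1 + η) * |q * α - p|)
  (hW : 1 ≤ W) (hE : 1 ≤ E) (hYE : Y ^ η ≤ E)

include hcR hcR1 hη hroth hW hE hYE

/-- a dyadic range -/
lemma pts_dyadic {β : ℝ} (j : ℕ) (hj : 8 * W ≤ 2 ^ j) (hjY : (2 : ℝ) ^ j ≤ Y)
    (P : Finset (ℤ × ℤ)) (hP : ∀ z ∈ P, |z.2| ≤ 2 ^ (j + 1))
    (h : ∀ z ∈ P, |(z.1 : ℝ) - α * z.2 - β| ≤ W / 2 ^ j) :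
    (P.card : ℝ) ≤ 16 * W * E / cR + 1 := by
  classical
  have h2j : (0 : ℝ) < 2 ^ j := by positivity
  obtain ⟨g, hg⟩ : ∃ g : ℝ, g = W / 2 ^ j := ⟨_, rfl⟩
  have hg2 : 2 * g < 1 := by
    rw [hg, mul_div_assoc', div_lt_one h2j]
    linarith
  obtain ⟨V, hV⟩ : ∃ V : ℕ, V = ⌊cR * 2 ^ j / (4 * W * E)⌋₊ := ⟨_, rfl⟩
  have hden : 0 < 4 * W * E := by positivity
  have hV1 : (V : ℝ) ≤ cR * 2 ^ j / (4 * W * E) := by
    rw [hV]
    exact Nat.floor_le (by positivity)
  have hV2 : cR * 2 ^ j / (4 * W * E) < V + 1 := by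
    rw [hV]
    exact Nat.lt_floor_add_one _
  have hVY : (V : ℝ) ≤ Y := by
    refine hV1.trans (le_trans ?_ hjY)
    rw [div_le_iff₀ hden]
    have e1 : 1 * 1 * 1 ≤ 4 * W * E := by
      gcongr
      norm_num
    nlinarith
  have hsep : ∀ q : ℕ, 1 ≤ q → q ≤ V → ∀ p : ℤ, 2 * g < |q * α - p| := by
    intro q hq1 hqV p
    have hq0 : (0 : ℝ) < q := by exact_mod_cast hq1
    have hqV' : (q : ℝ) ≤ V := by exact_mod_cast hqV
    have h1 := hroth q hq1 p
    have h2 : (q : ℝ) ^ (1 + η) ≤ cR * 2 ^ j / (4 * W) := by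
      rw [Real.rpow_add hq0, Real.rpow_one]
      have h3 : (q : ℝ) ^ η ≤ E :=
        (Real.rpow_le_rpow hq0.le (hqV'.trans hVY) hη.le).trans hYE
      calc (q : ℝ) * (q : ℝ) ^ η ≤ (cR * 2 ^ j / (4 * W * E)) * E := by
            gcongr
            exact hqV'.trans hV1
        _ = _ := by field_simp
    have h3 : cR ≤ cR * 2 ^ j / (4 * W) * |q * α - p| :=
      h1.trans (mul_le_mul_of_nonneg_right h2 (abs_nonneg _))
    have h4 : 4 * W ≤ 2 ^ j * |q * α - p| := by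
      have h5 : cR * (4 * W) ≤ cR * (2 ^ j * |q * α - p|) := by
        calc cR * (4 * W) ≤ (cR * 2 ^ j / (4 * W) * |q * α - p|) * (4 * W) := by gcongr
          _ = _ := by field_simp
      exact le_of_mul_le_mul_left h5 hcR
    rw [hg, mul_div_assoc', div_lt_iff₀ h2j]
    linarith
  have h1 : P.card = (P.image fun z => (-z.1, z.2)).card := by
    rw [card_image_of_injective]
    intro z z' hzz
    simp only [Prod.mk.injEq, neg_inj] at hzz
    exact Prod.ext hzz.1 hzz.2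
  have h2 := pair_sep (E := β) (H := 2 ^ (j + 1)) hg2 hsep (P.image fun z => (-z.1, z.2)) (by
    intro z hz
    rw [mem_image] at hz
    obtain ⟨z', hz', rfl⟩ := hz
    push_cast
    exact hP z' hz') (by
    intro z hz
    rw [mem_image] at hz
    obtain ⟨z', hz', rfl⟩ := hz
    have h3 := h z' hz'
    rw [← hg] at h3
    have h4 : (((-z'.1 : ℤ)) : ℝ) + z'.2 * α + β = -((z'.1 : ℝ) - α * z'.2 - β) := by
      push_cast
      ring
    simp only
    rw [h4, abs_neg]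
    exact h3)
  rw [h1]
  have h3 : (((2 * 2 ^ (j + 1) / (V + 1) + 1 : ℕ)) : ℝ) ≤ 16 * W * E / cR + 1 := by
    push_cast
    have h4 : (((2 * 2 ^ (j + 1) / (V + 1) : ℕ)) : ℝ) ≤ (2 * 2 ^ (j + 1)) / (V + 1) := by
      refine Nat.cast_div_le.trans (le_of_eq ?_)
      push_cast
      rfl
    have h5 : (2 * 2 ^ (j + 1) : ℝ) / (V + 1) ≤ 16 * W * E / cR := by
      rw [div_le_div_iff₀ (by positivity) hcR]
      have h6 : cR * 2 ^ j ≤ 4 * W * E * (V + 1) := by
        rw [div_lt_iff₀ hden] at hV2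
        linarith
      calc 2 * 2 ^ (j + 1) * cR = 4 * (cR * 2 ^ j) := by ring
        _ ≤ 4 * (4 * W * E * (V + 1)) := by gcongr
        _ = _ := by ring
    have h7 : (((2 * 2 ^ (j + 1) / (V + 1) : ℕ)) : ℝ) ≤ 16 * W * E / cR := h4.trans h5
    push_cast at h7
    linarith
  exact (Nat.cast_le.2 h2).trans h3

/-- all sizes -/
lemma pts_count {β : ℝ} {Y₁ : ℕ} (hY₁ : 1 ≤ Y₁) (hY : (Y₁ : ℝ) ≤ Y) (P : Finset (ℤ × ℤ))
    (h1 : ∀ z ∈ P, 16 * W ≤ |(z.2 : ℝ)|) (h2 : ∀ z ∈ P, z.2.natAbs ≤ Y₁)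
    (h3 : ∀ z ∈ P, |(z.1 : ℝ) - α * z.2 - β| ≤ W / |(z.2 : ℝ)|) :
    (P.card : ℝ) ≤ (Nat.log 2 Y₁ + 1) * (16 * W * E / cR + 1) := by
  classical
  have habs : ∀ n : ℤ, |(n : ℝ)| = ((n.natAbs : ℕ) : ℝ) := by
    intro n
    rw [← Int.cast_abs, Int.abs_eq_natAbs, Int.cast_natCast]
  have key := card_cover (S := P) (K := range (Nat.log 2 Y₁ + 1))
    (fun j z => 2 ^ j ≤ z.2.natAbs ∧ z.2.natAbs < 2 ^ (j + 1)) (B := 16 * W * E / cR + 1) ?_ ?_
  · rw [card_range] at key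
    push_cast at key
    exact key
  · intro z hz
    have hz0 : z.2.natAbs ≠ 0 := by
      intro h0
      have := h1 z hz
      rw [habs, h0, Nat.cast_zero] at this
      linarith
    refine ⟨Nat.log 2 z.2.natAbs, ?_, Nat.pow_log_le_self 2 hz0, ?_⟩
    · rw [mem_range, Nat.lt_succ_iff]
      exact Nat.log_mono_right (h2 z hz)
    · exact Nat.lt_pow_succ_log_self (by norm_num) _
  · intro j hj T hT hTj
    rcases T.eq_empty_or_nonempty with h0 | ⟨z₀, hz₀⟩
    · rw [h0, card_empty, Nat.cast_zero]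
      positivity
    have hj1 : 8 * W ≤ 2 ^ j := by
      have e1 := h1 z₀ (hT hz₀)
      rw [habs] at e1
      have e2 : ((z₀.2.natAbs : ℕ) : ℝ) < 2 ^ (j + 1) := by exact_mod_cast (hTj z₀ hz₀).2
      rw [pow_succ] at e2
      linarith
    have hj2 : (2 : ℝ) ^ j ≤ Y := by
      have e1 : ((2 ^ j : ℕ) : ℝ) ≤ Y₁ := by
        exact_mod_cast (hTj z₀ hz₀).1.trans (h2 z₀ (hT hz₀))
      push_cast at e1
      linarith
    refine pts_dyadic hcR hcR1 hη hroth hW hE hYE (β := β) j hj1 hj2 T ?_ ?_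
    · intro z hz
      rw [Int.abs_eq_natAbs]
      exact_mod_cast (hTj z hz).2.le
    · intro z hz
      refine (h3 z (hT hz)).trans ?_
      rw [habs]
      have e1 : (2 : ℝ) ^ j ≤ ((z.2.natAbs : ℕ) : ℝ) := by exact_mod_cast (hTj z hz).1
      gcongr

end

/-- the indices of the powers of `y` of degree below `m` -/
def Jk (d m : ℕ) : Finset ↥(I d) := univ.filter fun p => p.1.2 = 0 ∧ p.1.1 < m

lemma card_Jk {d m : ℕ} (hm : m ≤ d) : (Jk d m).card = m := by
  suffices key : (Jk d m).card = (range m).card by rw [key, card_range]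
  refine card_bij' (fun p _ => p.1.1) (fun k hk => ip d k (by rw [mem_range] at hk; omega)) ?_ ?_
    ?_ ?_
  · intro p hp
    unfold Jk at hp
    rw [mem_filter] at hp
    rw [mem_range]
    exact hp.2.2
  · intro k hk
    rw [mem_range] at hk
    unfold Jk
    rw [mem_filter]
    exact ⟨mem_univ _, rfl, hk⟩
  · intro p hp
    unfold Jk at hp
    rw [mem_filter] at hp
    apply Subtype.ext
    apply Prod.ext
    · rfl
    · exact hp.2.1.symm
  · intro k hk
    rfl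

/-- the digits are unique -/
lemma digit_unique {d H m : ℕ} (hm : m ≤ d) {a a' : Cf d} (ha : a ∈ ibox ↥(I d) H)
    (ha' : a' ∈ ibox ↥(I d) H) (hag : ∀ i ∉ Jk d m, a i = a' i) {x y : ℤ}
    (hy : 2 * H < y.natAbs) (h0 : Fv (co a) d x y = Fv (co a') d x y) : a = a' := by
  classical
  rcases Nat.eq_zero_or_pos m with h | h
  · funext i
    apply hag
    unfold Jk
    rw [mem_filter, h]
    rintro ⟨-, -, h2⟩
    omega
  obtain ⟨n, rfl⟩ : ∃ n, m = n + 1 := ⟨m - 1, by omega⟩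
  have hy0 : y ≠ 0 := by
    rintro rfl
    simp at hy
  have hcard := card_digits H y hy0 n (∑ j : Fin (n + 1), co a j 0 * y ^ (j : ℕ))
  rw [Nat.div_eq_of_lt hy, zero_add, one_pow, card_le_one] at hcard
  have h1 : Fv (co a) d x y - Fv (co a') d x y =
      ∑ k ∈ range (n + 1), (co a k 0 * y ^ k - co a' k 0 * y ^ k) := by
    unfold Fv
    rw [← sum_sub_distrib]
    rw [← sum_subset (range_subset_range.2 (by omega : n + 1 ≤ d + 1))
      (f := fun k => ∑ i ∈ range (k + 1), co a k i * (x ^ i * y ^ (k - i)) -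
        ∑ i ∈ range (k + 1), co a' k i * (x ^ i * y ^ (k - i)))]
    · refine sum_congr rfl fun k hk => ?_
      rw [← sum_sub_distrib, sum_eq_single_of_mem 0 (mem_range.2 (Nat.succ_pos k))]
      · simp
      · intro i hi hi0
        rw [mem_range] at hk hi
        have hmem : (k, i) ∈ I d := by rw [mem_I]; omega
        have hnJ : (⟨(k, i), hmem⟩ : ↥(I d)) ∉ Jk d (n + 1) := by
          unfold Jk
          rw [mem_filter]
          rintro ⟨-, h, -⟩
          exact hi0 h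
        rw [co_of_mem a hmem, co_of_mem a' hmem, hag _ hnJ, sub_self]
    · intro k hk hk'
      rw [mem_range] at hk hk'
      rw [← sum_sub_distrib]
      apply sum_eq_zero
      intro i hi
      rw [mem_range] at hi
      have hmem : (k, i) ∈ I d := by rw [mem_I]; omega
      have hnJ : (⟨(k, i), hmem⟩ : ↥(I d)) ∉ Jk d (n + 1) := by
        unfold Jk
        rw [mem_filter]
        rintro ⟨-, -, h⟩
        exact hk' h
      rw [co_of_mem a hmem, co_of_mem a' hmem, hag _ hnJ, sub_self]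
  rw [h0, sub_self, sum_sub_distrib] at h1
  have h2 := hcard (fun j : Fin (n + 1) => co a j 0) (by
    rw [mem_filter, mem_ibox]
    exact ⟨fun i => co_le ha _ _, rfl⟩) (fun j : Fin (n + 1) => co a' j 0) (by
    rw [mem_filter, mem_ibox]
    refine ⟨fun i => co_le ha' _ _, ?_⟩
    rw [Fin.sum_univ_eq_sum_range (fun k => co a k 0 * y ^ k),
      Fin.sum_univ_eq_sum_range (fun k => co a' k 0 * y ^ k)]
    linarith)
  funext p
  by_cases hp : p ∈ Jk d (n + 1)
  · have hpI := mem_I.1 p.2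
    unfold Jk at hp
    rw [mem_filter] at hp
    have h3 := congrFun h2 ⟨p.1.1, hp.2.2⟩
    simp only at h3
    have h4 : p = ip d p.1.1 hpI.1 := by
      apply Subtype.ext
      apply Prod.ext
      · rfl
      · exact hp.2.1
    rw [co_of_mem a (ip d p.1.1 hpI.1).2, co_of_mem a' (ip d p.1.1 hpI.1).2] at h3
    rw [h4]
    exact h3
  · exact hag p hp

end Pool.Agent.K1H62.LL
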