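import Mathlib

set_option autoImplicit false

/-! Tails of power sums. -/

open Finset

namespace Pool.Agent.K1H62.LL

lemma tail_term (k : ℕ) (hk : 1 ≤ k) (n : ℕ) :
    1 / (((n : ℝ) + 1) ^ (k + 1)) ≤ 2 / (((n : ℝ) + 1) ^ k) - 2 / ((((n + 1 : ℕ) : ℝ) + 1) ^ k) := by
  push_cast
  obtain ⟨u, hu⟩ : ∃ u : ℝ, u = (n : ℝ) + 1 := ⟨_, rfl⟩
  have hu1 : 1 ≤ u := by
    rw [hu]
    linarith [(Nat.cast_nonneg n : (0 : ℝ) ≤ n)]
  have hu0 : 0 < u := by linarith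
  rw [← hu]
  have h1 : 1 / ((u + 1) ^ k) ≤ 1 / (u ^ k) * (u / (u + 1)) := by
    obtain ⟨m, rfl⟩ : ∃ m, k = m + 1 := ⟨k - 1, by omega⟩
    have e : 1 / (u ^ (m + 1)) * (u / (u + 1)) = 1 / (u ^ m * (u + 1)) := by
      rw [pow_succ]
      field_simp
    rw [e, pow_succ]
    apply one_div_le_one_div_of_le (by positivity)
    gcongr
    linarith
  have h2 : 2 / (u ^ k) - 2 / ((u + 1) ^ k) ≥ 2 * (1 / (u ^ k) * (1 / (u + 1))) := by
    have e1 : 2 / (u ^ k) = 2 * (1 / u ^ k) := by ring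
    have e2 : 2 / ((u + 1) ^ k) = 2 * (1 / (u + 1) ^ k) := by ring
    have e3 : 1 / (u ^ k) * (1 / (u + 1)) = 1 / u ^ k - 1 / (u ^ k) * (u / (u + 1)) := by
      field_simp
      ring
    rw [e1, e2, e3]
    linarith
  refine le_trans ?_ h2
  have h3 : 1 / (u ^ (k + 1)) = 1 / u ^ k * (1 / u) := by
    rw [pow_succ]
    field_simp
  rw [h3]
  have h4 : 1 / u ≤ 2 * (1 / (u + 1)) := by
    rw [mul_one_div, div_le_div_iff₀ hu0 (by linarith)]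
    linarith
  calc 1 / u ^ k * (1 / u) ≤ 1 / u ^ k * (2 * (1 / (u + 1))) := by gcongr
    _ = _ := by ring

lemma sum_tail_pow (k : ℕ) (hk : 1 ≤ k) (T : ℕ) : ∀ n : ℕ, T ≤ n →
    ∑ Y ∈ Ico T n, 1 / (((Y : ℝ) + 1) ^ (k + 1)) ≤
      2 / (((T : ℝ) + 1) ^ k) - 2 / (((n : ℝ) + 1) ^ k) := by
  intro n hn
  induction n, hn using Nat.le_induction with
  | base => simp
  | succ n hn ih =>
    rw [sum_Ico_succ_top hn]
    have h1 := tail_term k hk n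
    linarith

lemma sum_tail_pow' (k : ℕ) (hk : 1 ≤ k) (T n : ℕ) :
    ∑ Y ∈ Ico T n, 1 / (((Y : ℝ) + 1) ^ (k + 1)) ≤ 2 / (((T : ℝ) + 1) ^ k) := by
  rcases le_total T n with h | h
  · refine (sum_tail_pow k hk T n h).trans ?_
    have : 0 ≤ 2 / (((n : ℝ) + 1) ^ k) := by positivity
    linarith
  · rw [Ico_eq_empty_of_le h, sum_empty]
    positivity

end Pool.Agent.K1H62.LL
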