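import Pool.Agent.R414.DT.Rl
import Pool.Agent.K1H62.LL.Near
import Pool.Agent.K1H62.LL.Pts
import Pool.Agent.K1H62.LL.Sums

set_option autoImplicit false
set_option linter.unusedSectionVars false

/-! Curves with a prescribed leading form: the ranges. -/

open Finset

namespace Pool.Agent.K1H62.LL

open Pool.Agent.R414.DN Pool.Agent.R414.DS Pool.Agent.R414.DT

variable {d : ℕ}

/-- **Small points outside a box.** -/
theorem small_lin {H A T : ℕ} (hd : 4 ≤ d) (hH : 1 ≤ H) {b : Cf d} {S : Finset (Cf d)}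
    (hS : S ⊆ QF b H)
    (hz : ∀ a ∈ S, ∃ x y : ℤ, |x| ≤ |y| ∧ T < y.natAbs ∧ y.natAbs ≤ A * H ∧
      Fv (co a) d x y = 0) :
    (S.card : ℝ) ≤ (24 * 2 ^ (d - 1) / ((T : ℝ) + 1) ^ (d - 3) +
      12 * 2 ^ (d - 1) * (A : ℝ) ^ 2 / H) *
      (2 * (H : ℝ) + 1) ^ (MM d - (d + 1) - 1) := by
  classical
  have hHr : (1 : ℝ) ≤ H := by exact_mod_cast hH
  have hH0 : (0 : ℝ) < H := by linarith
  have hM := MM_big (by omega : 4 ≤ d)
  have hsub : S ⊆ (Ico T (A * H)).biUnion fun Y =>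
        ((shell (Y + 1)).filter fun P => P.2.natAbs = Y + 1).biUnion fun P =>
        S.filter fun a => Fv (co a) d P.1 P.2 = 0 := by
    intro a ha
    obtain ⟨x, y, hxy, hT, hy, h0⟩ := hz a ha
    have hxy' : x.natAbs ≤ y.natAbs := by
      rw [Int.abs_eq_natAbs, Int.abs_eq_natAbs] at hxy
      exact_mod_cast hxy
    rw [mem_biUnion]
    refine ⟨y.natAbs - 1, ?_, ?_⟩
    · rw [mem_Ico]
      omega
    · rw [mem_biUnion]
      refine ⟨(x, y), ?_, ?_⟩
      · unfold shell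
        simp only [mem_filter, mem_product, mem_Icc]
        omega
      · rw [mem_filter]
        exact ⟨ha, h0⟩
  have hcard : (S.card : ℝ) ≤ ∑ Y ∈ Ico T (A * H),
      (4 * (2 * ((Y : ℝ) + 1) + 1)) * ((((2 * H / (Y + 1) + 1) ^ (d - 1) : ℕ) : ℝ) *
        (2 * (H : ℝ) + 1) ^ (MM d - (d + 1) - d)) := by
    have h1 := (Nat.cast_le (α := ℝ)).2 ((card_le_card hsub).trans card_biUnion_le)
    push_cast at h1
    refine h1.trans (sum_le_sum fun Y _ => ?_)
    have h2 := (Nat.cast_le (α := ℝ)).2 (card_biUnion_le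
      (s := (shell (Y + 1)).filter fun P => P.2.natAbs = Y + 1)
      (t := fun P => S.filter fun a => Fv (co a) d P.1 P.2 = 0))
    refine h2.trans ?_
    push_cast
    calc ∑ P ∈ (shell (Y + 1)).filter fun P => P.2.natAbs = Y + 1,
          ((S.filter fun a => Fv (co a) d P.1 P.2 = 0).card : ℝ)
        ≤ ∑ P ∈ (shell (Y + 1)).filter fun P => P.2.natAbs = Y + 1,
          (((2 * H / (Y + 1) + 1 : ℕ) : ℝ) ^ (d - 1) *
            (2 * (H : ℝ) + 1) ^ (MM d - (d + 1) - d)) := by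
          apply sum_le_sum
          intro P hP
          have hP2 := (mem_filter.1 hP).2
          have hne : P.2 ≠ 0 := by
            intro h
            rw [h] at hP2
            simp at hP2
          have h3 := zero_at_QF (by omega : 4 ≤ d) ((filter_subset _ _).trans hS) (x := P.1) hne
            (S := S.filter fun a => Fv (co a) d P.1 P.2 = 0) (fun a ha => (mem_filter.1 ha).2)
          rw [hP2] at h3
          exact h3
      _ = (((shell (Y + 1)).filter fun P => P.2.natAbs = Y + 1).card : ℝ) * _ := by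
          rw [sum_const, nsmul_eq_mul]
      _ ≤ _ := by
          have h4 : ((shell (Y + 1)).filter fun P => P.2.natAbs = Y + 1).card ≤
            4 * (2 * (Y + 1) + 1) := (card_le_card (filter_subset _ _)).trans (card_shell _)
          have h5 : (((shell (Y + 1)).filter fun P => P.2.natAbs = Y + 1).card : ℝ) ≤
            4 * (2 * ((Y : ℝ) + 1) + 1) := by exact_mod_cast h4
          push_cast
          gcongr
  refine hcard.trans ?_
  set B : ℝ := (2 * (H : ℝ) + 1) ^ (MM d - (d + 1) - d) with hB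
  have hB0 : 0 < B := by rw [hB]; positivity
  have hterm : ∀ Y ∈ Ico T (A * H), (4 * (2 * ((Y : ℝ) + 1) + 1)) *
      ((((2 * H / (Y + 1) + 1) ^ (d - 1) : ℕ) : ℝ) * B) ≤
      12 * 2 ^ (d - 1) * B * ((2 * H) ^ (d - 1) * (1 / ((Y : ℝ) + 1) ^ (d - 3 + 1)) +
        (A : ℝ) * (H : ℝ)) := by
    intro Y hY
    rw [mem_Ico] at hY
    have h1 := nat_div_bound (d - 1) H (Y + 1) (Nat.succ_pos Y)
    push_cast at h1
    have hY1 : (1 : ℝ) ≤ (Y : ℝ) + 1 := by linarith [(Nat.cast_nonneg Y : (0 : ℝ) ≤ Y)]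
    have hYH : (Y : ℝ) + 1 ≤ (A : ℝ) * (H : ℝ) := by exact_mod_cast hY.2
    have h2 : (4 * (2 * ((Y : ℝ) + 1) + 1)) ≤ 12 * ((Y : ℝ) + 1) := by linarith
    have h3 : ((Y : ℝ) + 1) * (1 / ((Y : ℝ) + 1) ^ (d - 1)) ≤ 1 / ((Y : ℝ) + 1) ^ (d - 3 + 1) := by
      have he : d - 1 = (d - 3 + 1) + 1 := by omega
      rw [he]
      have hY0 : (0 : ℝ) < (Y : ℝ) + 1 := by linarith
      rw [mul_one_div, div_le_div_iff₀ (by positivity) (by positivity), one_mul,
        ← pow_succ']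
    push_cast
    calc (4 * (2 * ((Y : ℝ) + 1) + 1)) * (((2 * H / (Y + 1) : ℕ) + 1) ^ (d - 1) * B)
        ≤ (12 * ((Y : ℝ) + 1)) *
          ((2 ^ (d - 1) * ((2 * H) ^ (d - 1) / ((Y : ℝ) + 1) ^ (d - 1) + 1)) * B) := by
          gcongr
      _ = 12 * 2 ^ (d - 1) * B *
          ((2 * H) ^ (d - 1) * (((Y : ℝ) + 1) * (1 / ((Y : ℝ) + 1) ^ (d - 1))) +
            ((Y : ℝ) + 1)) := by
          field_simp
      _ ≤ _ := by gcongr
  have hsum : ∑ Y ∈ Ico T (A * H), (4 * (2 * ((Y : ℝ) + 1) + 1)) *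
      ((((2 * H / (Y + 1) + 1) ^ (d - 1) : ℕ) : ℝ) * B) ≤
      12 * 2 ^ (d - 1) * B * ((2 / ((T : ℝ) + 1) ^ (d - 3) + (A : ℝ) ^ 2 / H) *
        (2 * (H : ℝ) + 1) ^ (d - 1)) := by
    refine (sum_le_sum hterm).trans ?_
    rw [← mul_sum, sum_add_distrib, ← mul_sum, sum_const, nsmul_eq_mul]
    have h1 := sum_tail_pow' (d - 3) (by omega) T (A * H)
    have h0 : ((Ico T (A * H)).card : ℝ) ≤ (A : ℝ) * (H : ℝ) := by
      rw [Nat.card_Ico]
      have : A * H - T ≤ A * H := Nat.sub_le _ _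
      exact_mod_cast this
    have h2 : ((Ico T (A * H)).card : ℝ) * ((A : ℝ) * (H : ℝ)) ≤
        (A : ℝ) ^ 2 / H * (2 * (H : ℝ) + 1) ^ (d - 1) := by
      calc ((Ico T (A * H)).card : ℝ) * ((A : ℝ) * (H : ℝ))
          ≤ (A : ℝ) * (H : ℝ) * ((A : ℝ) * (H : ℝ)) := by gcongr
        _ = (A : ℝ) ^ 2 / H * (H : ℝ) ^ 3 := by field_simp
        _ ≤ (A : ℝ) ^ 2 / H * (H : ℝ) ^ (d - 1) := by
          have := pow_le_pow_right₀ hHr (by omega : 3 ≤ d - 1)
          gcongr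
        _ ≤ (A : ℝ) ^ 2 / H * (2 * (H : ℝ) + 1) ^ (d - 1) := by gcongr; linarith
    have h3 : ((2 * H : ℝ)) ^ (d - 1) ≤ (2 * H + 1) ^ (d - 1) := by gcongr; linarith
    have h6 : (2 * (H : ℝ)) ^ (d - 1) * (∑ Y ∈ Ico T (A * H), 1 / (((Y : ℝ) + 1) ^ (d - 3 + 1))) ≤
        (2 * (H : ℝ) + 1) ^ (d - 1) * (2 / ((T : ℝ) + 1) ^ (d - 3)) :=
      mul_le_mul h3 h1 (sum_nonneg fun _ _ => by positivity) (by positivity)
    apply mul_le_mul_of_nonneg_left _ (by positivity)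
    linarith
  have hfin : (2 * (H : ℝ) + 1) ^ (MM d - (d + 1) - 1) = B * (2 * (H : ℝ) + 1) ^ (d - 1) := by
    rw [hB, ← pow_add]
    congr 1
    omega
  rw [hfin]
  refine hsum.trans (le_of_eq ?_)
  ring

section

variable {b : Cf d} {H : ℕ} {h c : ℝ} (hH : 1 ≤ H) (hb : ∀ k i, |(co b k i : ℝ)| ≤ h)
  (hh : 1 ≤ h) (hc0 : 0 < c) (hc1 : c ≤ 1)
  (hcb : ∀ t : ℝ, |t| ≤ 2 → c ≤ |TT (co b) d 0 t| ∨ c ≤ |TT (co b) d 1 t|)

include hH hb hh hc0 hc1 hcb

/-- **Points in the strips.** -/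
theorem mid_strip (hd : 4 ≤ d) (hL : Lead b) {X : ℕ} {S : Finset (Cf d)} (hS : S ⊆ QF b H)
    (hz : ∀ a ∈ S, ∃ x y : ℤ, Fv (co a) d x y = 0 ∧ |x| ≤ |y| ∧
      AA d h c * H ≤ |(y : ℝ)| ∧ 2 * H < y.natAbs ∧ y.natAbs ≤ X) :
    (S.card : ℝ) ≤ ((2 * X + 1) * (d * (2 * (WA d c * H) + 1))) *
      (2 * (H : ℝ) + 1) ^ (MM d - (d + 1) - d) := by
  classical
  have hH' : (1 : ℝ) ≤ H := by exact_mod_cast hH
  have hcp := c1_pos d
  have hNR := noRoot_of_lead (by omega : 2 ≤ d) hL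
  obtain ⟨W, hW⟩ : ∃ W : ℝ, W = WA d c * H := ⟨_, rfl⟩
  have hW0 : 0 ≤ W := by rw [hW]; unfold WA; positivity
  rw [← hW]
  obtain ⟨K, hK⟩ : ∃ K : Finset (ℤ × ℤ), K = (Icc (-(X : ℤ)) X ×ˢ Icc (-(X : ℤ)) X).filter
    (fun P => 2 * H < P.2.natAbs ∧ ∃ α ∈ rts (co b) d, |(P.1 : ℝ) - α * P.2| ≤ W) := ⟨_, rfl⟩
  have hKc : (K.card : ℝ) ≤ (2 * X + 1) * (d * (2 * W + 1)) := by
    have key := card_cover (S := K) (K := Icc (-(X : ℤ)) X ×ˢ rts (co b) d)
      (fun q P => P.2 = q.1 ∧ |(P.1 : ℝ) - q.2 * P.2| ≤ W) (B := 2 * W + 1) ?_ ?_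
    · rw [card_product, card_Icc_H] at key
      refine key.trans ?_
      have h1 : ((rts (co b) d).card : ℝ) ≤ d := by exact_mod_cast card_rts (co b) d
      push_cast
      calc (2 * (X : ℝ) + 1) * ((rts (co b) d).card : ℝ) * (2 * W + 1)
          ≤ (2 * (X : ℝ) + 1) * d * (2 * W + 1) := by gcongr
        _ = _ := by ring
    · intro P hP
      rw [hK, mem_filter, mem_product] at hP
      obtain ⟨⟨-, h2⟩, -, α, hα, h3⟩ := hP
      exact ⟨(P.2, α), mem_product.2 ⟨h2, hα⟩, rfl, h3⟩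
    · intro q _ T hT hq
      have h1 : T.card = (T.image fun P => P.1).card := by
        rw [card_image_of_injOn]
        intro P hP P' hP' hPP
        rw [mem_coe] at hP hP'
        exact Prod.ext hPP ((hq P hP).1.trans (hq P' hP').1.symm)
      rw [h1]
      apply int_window hW0 (c := q.2 * q.1)
      intro n hn
      rw [mem_image] at hn
      obtain ⟨P, hP, rfl⟩ := hn
      have h2 := (hq P hP).2
      rw [(hq P hP).1] at h2
      exact h2
  have key := card_cover (S := S) (K := K) (fun P a => Fv (co a) d P.1 P.2 = 0)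
    (B := (2 * (H : ℝ) + 1) ^ (MM d - (d + 1) - d)) ?_ ?_
  · exact key.trans (by gcongr)
  · intro a ha
    obtain ⟨x, y, h0, hxy, hy1, hy2, hy3⟩ := hz a ha
    have haQ := hS ha
    obtain ⟨α, -, h2, h4, -⟩ := near_asym hH hb hh hc0 hc1 hcb (by omega)
      (co_le' (mem_QF.1 haQ).1) (mem_QF.1 haQ).2 h0 hxy hy1
    refine ⟨(x, y), ?_, h0⟩
    rw [hK, mem_filter, mem_product, mem_Icc, mem_Icc]
    have hxy' : x.natAbs ≤ y.natAbs := by
      rw [Int.abs_eq_natAbs, Int.abs_eq_natAbs] at hxy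
      exact_mod_cast hxy
    refine ⟨⟨⟨by simp only; omega, by simp only; omega⟩, by simp only; omega, by simp only; omega⟩,
      hy2, α, mem_rts hNR h2, ?_⟩
    have hy' : (y : ℝ) ≠ 0 := by
      have : y ≠ 0 := by omega
      exact_mod_cast this
    have hy0 : 0 < |(y : ℝ)| := abs_pos.2 hy'
    simp only
    have e1 : (x : ℝ) - α * y = ((x : ℝ) / y - α) * y := by field_simp
    rw [e1, abs_mul]
    rw [le_div_iff₀ hy0] at h4
    rw [hW]
    exact h4
  · intro P hP T hT hTP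
    rw [hK, mem_filter] at hP
    have hne : P.2 ≠ 0 := by
      intro h
      rw [h] at hP
      simp at hP
    have h1 := zero_at_QF hd (hT.trans hS) (x := P.1) hne hTP
    rw [Nat.div_eq_of_lt hP.2.1] at h1
    simpa using h1

/-- **Points near the asymptotes.** -/
theorem mid_roth (hd : 4 ≤ d) (hL : Lead b) {cR η E Y : ℝ} (hcR : 0 < cR) (hcR1 : cR ≤ 1)
    (hη : 0 < η) (hroth : ∀ α ∈ rts (co b) d, ∀ q : ℕ, 1 ≤ q → ∀ p : ℤ,
      cR ≤ (q : ℝ) ^ (1 + η) * |q * α - p|) (hE : 1 ≤ E) (hYE : Y ^ η ≤ E) {Y₁ : ℕ} (hY₁ : 1 ≤ Y₁)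
    (hY : (Y₁ : ℝ) ≤ Y) {W : ℝ} (hW : 1 ≤ W) (hWE : EA d h c * (H : ℝ) ^ 2 ≤ W)
    {S : Finset (Cf d)} (hS : S ⊆ QF b H)
    (hz : ∀ a ∈ S, ∃ x y : ℤ, Fv (co a) d x y = 0 ∧ |x| ≤ |y| ∧
      AA d h c * H ≤ |(y : ℝ)| ∧ 16 * W ≤ |(y : ℝ)| ∧ 2 * H < y.natAbs ∧ y.natAbs ≤ Y₁) :
    (S.card : ℝ) ≤ (d * ((Nat.log 2 Y₁ + 1) * (16 * W * E / cR + 1))) *
      (2 * (H : ℝ) + 1) ^ (MM d - (d + 1) - (d - 1)) := by
  classical
  have hM := MM_big hd
  have hNR := noRoot_of_lead (by omega : 2 ≤ d) hL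
  have hEA0 : 0 ≤ EA d h c := by
    have hcp := c1_pos d
    unfold EA WA
    positivity
  refine rel_QF hS (Jk d (d - 1)) (fun p hp => ?_) (by positivity) ?_ (card_Jk (Nat.sub_le _ _))
    (by omega)
  · unfold Jk at hp
    rw [mem_filter] at hp
    omega
  intro c' T hT hTb
  rcases T.eq_empty_or_nonempty with h0 | ⟨a₀, h0⟩
  · rw [h0, card_empty, Nat.cast_zero]
    positivity
  have hbet : ∀ a ∈ T, ∀ α, bet (co a) d α = bet (co a₀) d α := by
    intro a ha α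
    have e1 := (mem_QF.1 (hS (hT ha))).2
    have e2 := (mem_QF.1 (hS (hT h0))).2
    have e3 : ∀ i, co a (d - 1) i = co a₀ (d - 1) i := by
      intro i
      by_cases hmem : (d - 1, i) ∈ I d
      · have hnJ : (⟨(d - 1, i), hmem⟩ : ↥(I d)) ∉ Jk d (d - 1) := by
          unfold Jk
          rw [mem_filter]
          rintro ⟨-, -, h⟩
          simp at h
        rw [co_of_mem a hmem, co_of_mem a₀ hmem, hTb a ha _ hnJ, hTb a₀ h0 _ hnJ]
      · unfold co
        rw [dif_neg hmem, dif_neg hmem]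
    unfold bet TT
    congr 1
    · congr 1
      refine sum_congr rfl fun j _ => ?_
      rw [e3]
    · refine sum_congr rfl fun j _ => ?_
      rw [e1, e2]
  have key := card_cover (S := T) (K := rts (co b) d)
    (fun α a => ∃ x y : ℤ, Fv (co a) d x y = 0 ∧ 16 * W ≤ |(y : ℝ)| ∧ 2 * H < y.natAbs ∧
      y.natAbs ≤ Y₁ ∧ |(x : ℝ) - α * y - bet (co a₀) d α| ≤ W / |(y : ℝ)|)
    (B := (Nat.log 2 Y₁ + 1) * (16 * W * E / cR + 1)) ?_ ?_
  · refine key.trans ?_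
    have h1 : ((rts (co b) d).card : ℝ) ≤ d := by exact_mod_cast card_rts (co b) d
    gcongr
  · intro a ha
    obtain ⟨x, y, g0, hxy, hy1, hy2, hy3, hy4⟩ := hz a (hT ha)
    obtain ⟨α, -, h2, h3⟩ := first_order hH hb hh hc0 hc1 hcb (by omega)
      (co_le' (mem_QF.1 (hS (hT ha))).1) (mem_QF.1 (hS (hT ha))).2 g0 hxy hy1
    refine ⟨α, mem_rts hNR h2, x, y, g0, hy2, hy3, hy4, ?_⟩
    rw [← hbet a ha]
    refine h3.trans ?_
    have hy0 : 0 < |(y : ℝ)| := by linarith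
    gcongr
  · intro α hα T' hT' hT'P
    choose! x y hxy using hT'P
    have hinj : T'.card = (T'.image fun a => (x a, y a)).card := by
      rw [card_image_of_injOn]
      intro a ha a' ha' haa
      rw [mem_coe] at ha ha'
      simp only [Prod.mk.injEq] at haa
      have f1 := hxy a ha
      have f2 := hxy a' ha'
      rw [← haa.1, ← haa.2] at f2
      apply digit_unique (m := d - 1) (Nat.sub_le _ _) (QF_sub b H (hS (hT (hT' ha))))
        (QF_sub b H (hS (hT (hT' ha')))) _ f1.2.2.1 (f1.1.trans f2.1.symm)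
      intro i hi
      rw [hTb a (hT' ha) i hi, hTb a' (hT' ha') i hi]
    rw [hinj]
    refine pts_count hcR hcR1 hη (hroth α hα) hW hE hYE (β := bet (co a₀) d α) hY₁ hY _ ?_ ?_ ?_
    · intro z hz
      rw [mem_image] at hz
      obtain ⟨a, ha, rfl⟩ := hz
      exact (hxy a ha).2.1
    · intro z hz
      rw [mem_image] at hz
      obtain ⟨a, ha, rfl⟩ := hz
      exact (hxy a ha).2.2.2.1
    · intro z hz
      rw [mem_image] at hz
      obtain ⟨a, ha, rfl⟩ := hz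
      exact (hxy a ha).2.2.2.2

end

end Pool.Agent.K1H62.LL
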