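import Pool.Agent.K1H62.LL.Chart

set_option autoImplicit false
set_option linter.unusedSectionVars false

/-! The curves with a prescribed leading form and a point outside of a box, `d ≥ 5`. -/

open Finset

namespace Pool.Agent.K1H62.LL

open Pool.Agent.R414.DN Pool.Agent.R414.DS Pool.Agent.R414.DT Pool.Agent.R414.DU

lemma coeff_LF {d : ℕ} (a : Cf d) (m : Fin 2 →₀ ℕ) :
    (LF a).coeff m = if m 0 + m 1 = d then ((co a d (m 0) : ℤ) : ℚ) else 0 := by
  unfold LF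
  have h1 : m.degree = m 0 + m 1 := by rw [Finsupp.degree_eq_sum, Fin.sum_univ_two]
  rw [MvPolynomial.coeff_map, MvPolynomial.coeff_homogeneousComponent, h1]
  split_ifs with h
  · rw [coeff_poly, h]
    rfl
  · simp

lemma LF_swV {d : ℕ} (a : Cf d) :
    LF (swV a) = MvPolynomial.renameEquiv ℚ (Equiv.swap (0 : Fin 2) 1) (LF a) := by
  ext m
  obtain ⟨m', hm'⟩ : ∃ m' : Fin 2 →₀ ℕ, m' = m.mapDomain (Equiv.swap (0 : Fin 2) 1) := ⟨_, rfl⟩
  have h0 : m' 0 = m 1 := by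
    rw [hm', Finsupp.mapDomain_equiv_apply]
    simp
  have h1 : m' 1 = m 0 := by
    rw [hm', Finsupp.mapDomain_equiv_apply]
    simp
  have hm : m = m'.mapDomain (Equiv.swap (0 : Fin 2) 1) := by
    ext i
    rw [Finsupp.mapDomain_equiv_apply]
    fin_cases i
    · simpa using h1.symm
    · simpa using h0.symm
  have h2 : (MvPolynomial.renameEquiv ℚ (Equiv.swap (0 : Fin 2) 1) (LF a)).coeff m =
      (LF a).coeff m' := by
    rw [MvPolynomial.renameEquiv_apply]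
    nth_rewrite 1 [hm]
    exact MvPolynomial.coeff_rename_mapDomain _ (Equiv.injective _) _ _
  rw [h2, coeff_LF, coeff_LF, h0, h1]
  by_cases h : m 0 + m 1 = d
  · rw [if_pos h, if_pos (by omega), co_swV a (by rw [mem_I]; omega)]
    congr 2
    omega
  · rw [if_neg h, if_neg (by omega)]

lemma QF_swV {d H : ℕ} {a b : Cf d} (ha : a ∈ QF b H) : swV a ∈ QF (swV b) H := by
  rw [mem_QF] at ha ⊢
  refine ⟨swV_mem ha.1, fun i => ?_⟩
  by_cases hmem : (d, i) ∈ I d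
  · rw [co_swV a hmem, co_swV b hmem]
    exact ha.2 _
  · unfold co
    rw [dif_neg hmem, dif_neg hmem]

lemma pow_shift {n h0 H : ℕ} (hH : 2 * n * h0 ≤ H) :
    (2 * (((H + h0 : ℕ)) : ℝ) + 1) ^ n ≤ 3 * (2 * (H : ℝ) + 1) ^ n := by
  obtain ⟨X, hX⟩ : ∃ X : ℝ, X = 2 * (H : ℝ) + 1 := ⟨_, rfl⟩
  have hH0 : (0 : ℝ) ≤ H := Nat.cast_nonneg H
  have hX0 : 0 < X := by rw [hX]; linarith
  have e1 : 2 * (((H + h0 : ℕ)) : ℝ) + 1 = X * (1 + 2 * h0 / X) := by
    rw [hX]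
    push_cast
    field_simp
    ring
  rw [e1, ← hX, mul_pow, mul_comm]
  apply mul_le_mul_of_nonneg_right _ (by positivity)
  have h1 : (1 + 2 * (h0 : ℝ) / X) ≤ Real.exp (2 * h0 / X) := by
    have := Real.add_one_le_exp (2 * (h0 : ℝ) / X)
    linarith
  have h2 : (1 + 2 * (h0 : ℝ) / X) ^ n ≤ Real.exp 1 := by
    calc (1 + 2 * (h0 : ℝ) / X) ^ n ≤ Real.exp (2 * h0 / X) ^ n := by
          apply pow_le_pow_left₀ (by positivity) h1
      _ = Real.exp (n * (2 * h0 / X)) := by rw [← Real.exp_nat_mul]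
      _ ≤ Real.exp 1 := by
          apply Real.exp_le_exp.2
          rw [mul_div_assoc', div_le_one hX0]
          have h3 : (2 : ℝ) * n * h0 ≤ H := by exact_mod_cast hH
          rw [hX]
          linarith
  have h3 := Real.exp_one_lt_d9
  linarith

/-- both charts -/
theorem both_lin {d : ℕ} {b : Cf d} (hd : 5 ≤ d) (hb : Irreducible (LF b)) :
    ∃ C : ℝ, 0 ≤ C ∧ ∀ T H : ℕ, 1 ≤ H → ∀ S : Finset (Cf d), S ⊆ QF b H →
    (∀ a ∈ S, ∃ x y : ℤ, Fv (co a) d x y = 0 ∧ T < max x.natAbs y.natAbs) →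
    (S.card : ℝ) ≤ (24 * 2 ^ d / ((T : ℝ) + 1) ^ (d - 3) + C / Real.sqrt H) *
      (2 * (H : ℝ) + 1) ^ (MM d - (d + 1) - 1) := by
  classical
  have hb' : Irreducible (LF (swV b)) := by
    rw [LF_swV]
    exact (MulEquiv.irreducible_iff
      (MvPolynomial.renameEquiv ℚ (Equiv.swap (0 : Fin 2) 1))).2 hb
  obtain ⟨C1, hC1, h1⟩ := card_y_lin hd (lead_of_irr (by omega) hb)
  obtain ⟨C2, hC2, h2⟩ := card_y_lin hd (lead_of_irr (by omega) hb')
  refine ⟨C1 + C2, add_nonneg hC1 hC2, fun T H hH S hS hz => ?_⟩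
  have hsub : S ⊆ S.filter (fun a => ∃ x y : ℤ, Fv (co a) d x y = 0 ∧ |x| ≤ |y| ∧ T < y.natAbs) ∪
      S.filter (fun a => ∃ x y : ℤ, Fv (co (swV a)) d x y = 0 ∧ |x| ≤ |y| ∧ T < y.natAbs) := by
    intro a ha
    rw [mem_union, mem_filter, mem_filter]
    obtain ⟨x, y, h0, hT⟩ := hz a ha
    rcases le_total |x| |y| with h | h
    · have h' : x.natAbs ≤ y.natAbs := by
        rw [Int.abs_eq_natAbs, Int.abs_eq_natAbs] at h
        exact_mod_cast h
      rw [max_eq_right h'] at hT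
      exact Or.inl ⟨ha, x, y, h0, h, hT⟩
    · have h' : y.natAbs ≤ x.natAbs := by
        rw [Int.abs_eq_natAbs, Int.abs_eq_natAbs] at h
        exact_mod_cast h
      rw [max_eq_left h'] at hT
      exact Or.inr ⟨ha, y, x, by rw [Fv_swV]; exact h0, h, hT⟩
  have b1 := h1 T H hH
    (S.filter (fun a => ∃ x y : ℤ, Fv (co a) d x y = 0 ∧ |x| ≤ |y| ∧ T < y.natAbs))
    ((filter_subset _ _).trans hS) (fun a ha => (mem_filter.1 ha).2)
  have b2 := h2 T H hH
    ((S.filter (fun a => ∃ x y : ℤ, Fv (co (swV a)) d x y = 0 ∧ |x| ≤ |y| ∧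
      T < y.natAbs)).image swV)
    (by
      intro c hc
      rw [mem_image] at hc
      obtain ⟨a, ha, rfl⟩ := hc
      exact QF_swV (hS (mem_filter.1 ha).1))
    (by
      intro c hc
      rw [mem_image] at hc
      obtain ⟨a, ha, rfl⟩ := hc
      exact (mem_filter.1 ha).2)
  rw [card_image_of_injective _ swV_inj] at b2
  have h3 := (Nat.cast_le (α := ℝ)).2 ((card_le_card hsub).trans (card_union_le _ _))
  push_cast at h3
  refine h3.trans ((add_le_add b1 b2).trans (le_of_eq ?_))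
  have e1 : (2 : ℝ) ^ d = 2 * 2 ^ (d - 1) := by
    rw [← pow_succ']
    congr 1
    omega
  rw [e1]
  ring

/-- the constant of the upper bound -/
noncomputable def K3 (d : ℕ) : ℝ := 3 * (24 * 2 ^ d + 1)

/-- **Upper bound.** -/
theorem upper_lin {e : ℕ} {φ : MvPolynomial (Fin 2) ℤ} (he : 4 ≤ e) (hφ : φ.IsHomogeneous (e + 1))
    (hirr : Irreducible (MvPolynomial.map (Int.castRingHom ℚ) φ)) (T : ℕ) :
    ∃ H₀ : ℕ, ∀ H : ℕ, H₀ ≤ H → ∀ S : Finset (Cf e), S ⊆ ibox ↥(I e) H →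
      (∀ r ∈ S, ∃ x y : ℤ, MvPolynomial.eval ![x, y] (φ + poly r) = 0 ∧
        T < max x.natAbs y.natAbs) →
      (S.card : ℝ) ≤ K3 (e + 1) / ((T : ℝ) + 1) ^ (e - 2) * (2 * (H : ℝ) + 1) ^ (MM e - 1) := by
  classical
  have hφd : φ.totalDegree ≤ e + 1 := hφ.totalDegree_le
  obtain ⟨h0, hh0⟩ : ∃ h0 : ℕ, ∀ m, |φ.coeff m| ≤ (h0 : ℤ) := by
    refine ⟨∑ m ∈ φ.support, (φ.coeff m).natAbs, fun m => ?_⟩
    by_cases hm : m ∈ φ.support
    · rw [Int.abs_eq_natAbs]
      exact_mod_cast single_le_sum (f := fun m => (φ.coeff m).natAbs) (fun _ _ => Nat.zero_le _) hm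
    · rw [MvPolynomial.notMem_support_iff.1 hm, abs_zero]
      positivity
  obtain ⟨b, hbbox, hb⟩ := exists_vec hφd hh0
  have hLFb : Irreducible (LF b) := by
    unfold LF
    rw [hb, MvPolynomial.homogeneousComponent_of_mem hφ, if_pos rfl]
    exact hirr
  obtain ⟨u, hu⟩ : ∃ u : ℝ, u = ((T : ℝ) + 1) ^ (e - 2) := ⟨_, rfl⟩
  have hT0 : (0 : ℝ) ≤ T := Nat.cast_nonneg T
  have hu1 : 1 ≤ u := by
    rw [hu]
    exact one_le_pow₀ (by linarith)
  have hu0 : 0 < u := by linarith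
  obtain ⟨C, hC, hmain⟩ := both_lin (by omega : 5 ≤ e + 1) hLFb
  have hMM2 : MM (e + 1) - (e + 1 + 1) = MM e := by
    rw [MM_eq, MM_eq]
    have h1 : (e + 1 + 1) * (e + 1 + 2) = (e + 1) * (e + 2) + 2 * (e + 1 + 1) := by ring
    rw [h1]
    omega
  rw [hMM2] at hmain
  have e3 : e + 1 - 3 = e - 2 := by omega
  rw [e3] at hmain
  obtain ⟨Ψ, hΨ⟩ : ∃ Ψ : Cf e → Cf (e + 1), Ψ = fun r p => b p + co r p.1.1 p.1.2 := ⟨_, rfl⟩
  have hco : ∀ r : Cf e, ∀ k i, co (Ψ r) k i = co b k i + co r k i := by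
    intro r k i
    by_cases hmem : (k, i) ∈ I (e + 1)
    · rw [co_of_mem _ hmem, co_of_mem b hmem, hΨ]
    · have hmem' : (k, i) ∉ I e := by
        rw [mem_I] at hmem ⊢
        omega
      unfold co
      rw [dif_neg hmem, dif_neg hmem, dif_neg hmem', add_zero]
  have hpoly : ∀ r : Cf e, poly (Ψ r) = φ + poly r := by
    intro r
    ext m
    rw [MvPolynomial.coeff_add, ← hb, coeff_poly, coeff_poly, coeff_poly, hco]
  have hΨinj : Function.Injective Ψ := by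
    intro r r' h
    have h1 := hpoly r
    rw [h, hpoly r'] at h1
    exact poly_inj (add_left_cancel h1).symm
  have hΨQ : ∀ H, ∀ r ∈ ibox ↥(I e) H, Ψ r ∈ QF b (H + h0) := by
    intro H r hr
    rw [mem_QF, mem_ibox]
    constructor
    · intro p
      rw [hΨ]
      simp only
      have h1 : |b p| ≤ h0 := by
        have := mem_ibox.1 hbbox p
        exact this
      have h2 := co_le hr p.1.1 p.1.2
      have h3 := abs_add_le (b p) (co r p.1.1 p.1.2)
      push_cast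
      linarith
    · intro i
      rw [hco]
      have hmem' : (e + 1, i) ∉ I e := by
        rw [mem_I]
        omega
      have h1 : co r (e + 1) i = 0 := by
        unfold co
        rw [dif_neg hmem']
      rw [h1, add_zero]
  obtain ⟨W, hW⟩ : ∃ W : ℕ, W = ⌈(C * u) ^ 2⌉₊ := ⟨_, rfl⟩
  refine ⟨1 + W + 2 * (MM e - 1) * h0, fun H hH S hS hz => ?_⟩
  have hH1 : 1 ≤ H := by omega
  have hH0 : (0 : ℝ) < H := by exact_mod_cast hH1
  have h1 := hmain T (H + h0) (by omega) (S.image Ψ) (by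
      intro a ha
      rw [mem_image] at ha
      obtain ⟨r, hr, rfl⟩ := ha
      exact hΨQ H r (hS hr)) (by
      intro a ha
      rw [mem_image] at ha
      obtain ⟨r, hr, rfl⟩ := ha
      obtain ⟨x, y, h2, h3⟩ := hz r hr
      refine ⟨x, y, ?_, h3⟩
      rw [← eval_poly, hpoly]
      exact h2)
  rw [card_image_of_injective _ hΨinj, ← hu] at h1
  have h2 := pow_shift (n := MM e - 1) (h0 := h0) (H := H) (by omega)
  have h5 : C / Real.sqrt ((H + h0 : ℕ) : ℝ) ≤ 1 / u := by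
    have h6 : (C * u) ^ 2 ≤ ((H + h0 : ℕ) : ℝ) := by
      have h7 : (C * u) ^ 2 ≤ W := by rw [hW]; exact Nat.le_ceil _
      have h8 : (W : ℝ) ≤ ((H + h0 : ℕ) : ℝ) := by exact_mod_cast (by omega : W ≤ H + h0)
      exact h7.trans h8
    have h9 : C * u ≤ Real.sqrt ((H + h0 : ℕ) : ℝ) := Real.le_sqrt_of_sq_le h6
    have h10 : 0 < Real.sqrt ((H + h0 : ℕ) : ℝ) := by
      apply Real.sqrt_pos.2
      push_cast
      positivity
    rw [div_le_div_iff₀ h10 hu0]
    linarith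
  refine h1.trans ?_
  rw [← hu]
  calc (24 * 2 ^ (e + 1) / u + C / Real.sqrt ((H + h0 : ℕ) : ℝ)) *
        (2 * (((H + h0 : ℕ)) : ℝ) + 1) ^ (MM e - 1)
      ≤ (24 * 2 ^ (e + 1) / u + 1 / u) * (3 * (2 * (H : ℝ) + 1) ^ (MM e - 1)) := by
        gcongr
    _ = _ := by
        unfold K3
        ring

end Pool.Agent.K1H62.LL
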